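import Mathlib
import Pool.Agent.Helper42.MD.Defs

set_option autoImplicit false

namespace Pool.Agent.Helper42.MD

open MeasureTheory

lemma exists_pred {V : Type} (G : SimpleGraph V) {s w : V} {m : ℕ} (hne : w ≠ s)
    (h : G.edist s w ≤ ((m + 1 : ℕ) : ℕ∞)) : ∃ u, G.Adj u w ∧ G.edist s u ≤ (m : ℕ∞) := by
  have ht : G.edist w s ≠ ⊤ := by
    rw [SimpleGraph.edist_comm]
    intro h'
    rw [h'] at h
    exact absurd h (by simp)
  obtain ⟨p, hp⟩ := SimpleGraph.exists_walk_of_edist_ne_top ht
  cases p with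
  | nil => exact absurd rfl hne
  | cons hadj q =>
    rename_i u
    refine ⟨u, hadj.symm, ?_⟩
    have h1 : G.edist s u ≤ (q.length : ℕ∞) := by
      rw [SimpleGraph.edist_comm]
      exact SimpleGraph.edist_le q
    have h2 : ((q.length + 1 : ℕ) : ℕ∞) ≤ ((m + 1 : ℕ) : ℕ∞) := by
      rw [SimpleGraph.edist_comm] at h
      rw [← hp, SimpleGraph.Walk.length_cons] at h
      exact h
    have h3 : q.length ≤ m := by
      have := (Nat.cast_le (α := ℕ∞)).mp h2
      omega
    exact h1.trans (Nat.cast_le.mpr h3)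

lemma edist_step {V : Type} (G : SimpleGraph V) {s u w : V} {m : ℕ} (h : G.Adj u w)
    (hu : G.edist s u ≤ (m : ℕ∞)) : G.edist s w ≤ ((m + 1 : ℕ) : ℕ∞) := by
  refine (SimpleGraph.edist_triangle (G := G) (u := s) (v := u) (w := w)).trans ?_
  rw [SimpleGraph.edist_eq_one_iff_adj.mpr h]
  push_cast
  exact add_le_add_left hu 1

/-- restriction of walks from `s` of length less than `n` to `R`, if `R` contains all the vertices at
distance less than `n` -/
lemma res_edist_le {V : Type} (G : SimpleGraph V) (R : Set V) (s : V) (n : ℕ)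
    (hR : ∀ u, G.edist s u < (n : ℕ∞) → u ∈ R) :
    ∀ m : ℕ, m < n → ∀ w, G.edist s w ≤ (m : ℕ∞) → (res G R).edist s w ≤ (m : ℕ∞) := by
  intro m
  induction m with
  | zero =>
    intro _ w hw
    have : s = w := (SimpleGraph.edist_eq_zero_iff (G := G)).mp (by simpa using hw)
    rw [this, SimpleGraph.edist_self]
    exact bot_le
  | succ m ih =>
    intro hm w hw
    by_cases hws : w = s
    · rw [hws, SimpleGraph.edist_self]
      exact bot_le
    obtain ⟨u, hu, hd⟩ := exists_pred G hws hw
    refine edist_step (res G R) (u := u) ⟨hu, hR u ?_, hR w ?_⟩ (ih (by omega) u hd)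
    · exact hd.trans_lt (Nat.cast_lt.mpr (by omega))
    · exact hw.trans_lt (Nat.cast_lt.mpr hm)

lemma res_le {V : Type} (G : SimpleGraph V) (R : Set V) : res G R ≤ G := fun _ _ h => h.1

/-- MD-B1 (deterministic). The pairs are separated by `s`: order each pair so that the first label has the
smaller distance `k i` from `s` (finite), and sort the pairs by `k i` (`Tuple.sort`). Let
`R = Rest p' i`, `k = k i`. For a vertex `w` the conditions `(res G R).edist s w ≤ m` and
`G.edist s w ≤ m` are equivalent for `m < k`: a walk of length `≤ m` from `s` in `G` only visits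
vertices at distance `≤ m < k j` from `s` for all `j ≥ i`, so it stays in `R`. With `m = k - 1`
(`k ≥ 1` because the first label is not `s`): the first label is adjacent to a vertex at distance
`k - 1`, and the second one (distance `> k`) is not within `r` of any vertex at distance `≤ k - 1`
(it would be adjacent to it or equal to it). -/
theorem bfs {V : Type} (X : V → Pl) (r ε : ℝ) (hr : 0 ≤ r) (s : V) (K : ℕ) (p : Fin K → V × V)
    (hp : Sep s p) (hd : ∀ i, dist (X (p i).1) (X (p i).2) ≤ ε)
    (hs : ∀ i, (geo r X).edist s (p i).1 ≠ (geo r X).edist s (p i).2) :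
    ∃ p' : Fin K → V × V, Sep s p' ∧ ∀ i, X ∈ Ev r ε s (Rest p' i) (p' i).1 (p' i).2 := by
  classical
  set G := geo r X with hG
  -- order the pairs
  have h1 : ∀ i, ∃ q : V × V, (q = p i ∨ q = (p i).swap) ∧ G.edist s q.1 < G.edist s q.2 := by
    intro i
    rcases lt_or_gt_of_ne (hs i) with h | h
    · exact ⟨p i, Or.inl rfl, h⟩
    · exact ⟨(p i).swap, Or.inr rfl, h⟩
  choose q hq hlt using h1
  set σ := Tuple.sort (fun i => G.edist s (q i).1) with hσ
  have hmono : Monotone ((fun i => G.edist s (q i).1) ∘ σ) := Tuple.monotone_sort _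
  obtain ⟨⟨hp1, hp2⟩, hp3⟩ := hp
  have hsep : Sep s (q ∘ σ) := by
    refine ⟨⟨fun i => ?_, fun i j hij => ?_⟩, fun i => ?_⟩
    · rcases hq (σ i) with h | h
      · rw [Function.comp_apply, h]; exact hp1 _
      · rw [Function.comp_apply, h]; exact (hp1 _).symm
    · have hσij : σ i ≠ σ j := fun h => hij (σ.injective h)
      have e1 := hp2 _ _ hσij
      have e2 := hp2 _ _ hσij.symm
      rcases hq (σ i) with h | h <;> rcases hq (σ j) with h' | h' <;>
        rw [Function.comp_apply, Function.comp_apply, h, h'] <;>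
        try simp only [Prod.fst_swap, Prod.snd_swap]
      · exact e1
      · exact ⟨e1.2.1, e1.1, e2.2.1.symm⟩
      · exact ⟨e2.2.1.symm, e1.2.2, e1.2.1⟩
      · exact ⟨e1.2.2, e2.2.1.symm, e1.1⟩
    · rcases hq (σ i) with h | h
      · rw [Function.comp_apply, h]; exact hp3 _
      · rw [Function.comp_apply, h]; exact (hp3 _).symm
  refine ⟨q ∘ σ, hsep, fun i => ?_⟩
  have hdi : dist (X ((q ∘ σ) i).1) (X ((q ∘ σ) i).2) ≤ ε := by
    rcases hq (σ i) with h | h
    · rw [Function.comp_apply, h]; exact hd _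
    · rw [Function.comp_apply, h, Prod.fst_swap, Prod.snd_swap, dist_comm]; exact hd _
  refine ⟨hdi, ?_⟩
  set a := ((q ∘ σ) i).1 with ha
  set b := ((q ∘ σ) i).2 with hb
  have hab : G.edist s a < G.edist s b := hlt (σ i)
  have hat : G.edist s a ≠ ⊤ := ne_top_of_lt hab
  obtain ⟨n, hn⟩ := ENat.ne_top_iff_exists.mp hat
  have hn0 : n ≠ 0 := by
    rintro rfl
    have : s = a := (SimpleGraph.edist_eq_zero_iff (G := G)).mp (by simpa using hn.symm)
    exact (hsep.2 i).1 this.symm
  obtain ⟨m, rfl⟩ := Nat.exists_eq_succ_of_ne_zero hn0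
  have hR : ∀ u, G.edist s u < ((m + 1 : ℕ) : ℕ∞) → u ∈ Rest (q ∘ σ) i := by
    intro u hu j hij
    have h2 : ((m + 1 : ℕ) : ℕ∞) ≤ G.edist s (q (σ j)).1 := by
      have := hmono hij
      exact hn.le.trans this
    constructor
    · rintro rfl
      exact absurd hu (not_lt.mpr h2)
    · rintro rfl
      exact absurd (hu.trans_le h2) (not_lt.mpr (hlt (σ j)).le)
  refine ⟨m, ?_, ?_⟩
  · obtain ⟨u, hu, hdu⟩ := exists_pred G (hsep.2 i).1 (m := m) hn.symm.le
    refine ⟨u, res_edist_le G _ s (m + 1) hR m (Nat.lt_succ_self m) u hdu, ?_⟩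
    have : G.Adj a u := hu.symm
    exact this.2
  · intro w hw
    by_contra hcon
    rw [not_lt] at hcon
    have hw' : G.edist s w ≤ (m : ℕ∞) :=
      (SimpleGraph.edist_anti (res_le G _)).trans hw
    have hle : G.edist s b ≤ ((m + 1 : ℕ) : ℕ∞) := by
      by_cases hwb : w = b
      · rw [← hwb]
        exact hw'.trans (Nat.cast_le.mpr (Nat.le_succ m))
      · have hadj : G.Adj w b := ⟨hwb, by rw [dist_comm]; exact hcon⟩
        exact edist_step G hadj hw'
    rw [← hn] at hab
    exact absurd hab (not_lt.mpr hle)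

end Pool.Agent.Helper42.MD
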