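import Mathlib
import Pool.Agent.Helper42.MD.Defs

set_option autoImplicit false

namespace Pool.Agent.Helper42.MD

open MeasureTheory

/-- volume of a box -/
theorem V1_box (s : Fin 2 → Set ℝ) :
    volume {x : Pl | ∀ i, x i ∈ s i} = volume (s 0) * volume (s 1) := by
  have h := (EuclideanSpace.volume_preserving_symm_measurableEquiv_toLp (Fin 2)).measure_preimage_equiv
    (Set.pi Set.univ s)
  rw [volume_pi_pi, Fin.prod_univ_two] at h
  rw [← h]
  congr 1
  ext x
  simp only [Set.mem_preimage, Set.mem_pi, Set.mem_univ, forall_true_left]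
  rfl

theorem V1_line (i : Fin 2) (c : ℝ) : volume {x : Pl | x i = c} = 0 := by
  have h := V1_box (fun j => if j = i then {c} else Set.univ)
  have h2 : {x : Pl | x i = c} ⊆ {x : Pl | ∀ j, x j ∈ (if j = i then ({c} : Set ℝ) else Set.univ)} := by
    intro x hx j
    by_cases hj : j = i
    · subst hj
      rw [if_pos rfl]
      exact hx
    · rw [if_neg hj]
      trivial
  refine measure_mono_null h2 ?_
  rw [h]
  fin_cases i
  · simp
  · simp

/-- MD-V1: elementary facts on squares and balls of the plane. Use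
`EuclideanSpace.volume_preserving_measurableEquiv` (or its current name) and `Real.volume_pi_Icc`-type
lemmas for `volume_Sq`; `EuclideanSpace.volume_closedBall_fin_two` (or `volume_closedBall`) for the
ball. `cell_volume`: for `y` in the square the points of the square in the cell of `y` form a box
with sides `L / m` (when `m * y i / L = m`, i.e. `y i = L`, the cell is a null set, hence only
`≤`, and equality for `y i < L`). -/
theorem volume_Sq (L : ℝ) (hL : 0 ≤ L) : volume (Sq L) = ENNReal.ofReal (L ^ 2) := by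
  have h := V1_box (fun _ => Set.Icc 0 L)
  have h2 : Sq L = {x : Pl | ∀ i, x i ∈ (fun _ : Fin 2 => Set.Icc (0 : ℝ) L) i} := rfl
  rw [h2, h, Real.volume_Icc, sub_zero, ← ENNReal.ofReal_mul hL, sq]

theorem measurableSet_Sq (L : ℝ) : MeasurableSet (Sq L) := by
  have h : IsClosed (Sq L) := by
    have h1 : Sq L = ⋂ i, {x : Pl | 0 ≤ x i ∧ x i ≤ L} := by
      ext x
      simp [Sq]
    rw [h1]
    refine isClosed_iInter (fun i => ?_)
    have hc : Continuous fun x : Pl => x i := by fun_prop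
    exact (isClosed_le continuous_const hc).inter (isClosed_le hc continuous_const)
  exact h.measurableSet

theorem volume_ball (x : Pl) (ε : ℝ) (hε : 0 ≤ ε) :
    volume (Metric.closedBall x ε) = ENNReal.ofReal (Real.pi * ε ^ 2) := by
  rw [EuclideanSpace.volume_closedBall_fin_two, ← ENNReal.ofReal_pow hε,
    ← ENNReal.ofReal_mul (pow_nonneg hε 2), mul_comm]

/-- the square with side `L` enlarged by `t` -/
theorem volume_thick (L t : ℝ) (hL : 0 ≤ L) (ht : 0 ≤ t) :
    volume {y : Pl | ∃ x ∈ Sq L, dist y x ≤ t} ≤ ENNReal.ofReal ((L + 2 * t) ^ 2) := by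
  have h := V1_box (fun _ => Set.Icc (-t) (L + t))
  have h2 : {y : Pl | ∃ x ∈ Sq L, dist y x ≤ t} ⊆
      {x : Pl | ∀ i, x i ∈ (fun _ : Fin 2 => Set.Icc (-t) (L + t)) i} := by
    rintro y ⟨x, hx, hxy⟩ i
    have h3 := PiLp.norm_apply_le (y - x) i
    rw [← dist_eq_norm] at h3
    have h4 : |y i - x i| ≤ t := le_trans h3 hxy
    have h5 := abs_le.1 h4
    have h6 := hx i
    exact ⟨by linarith [h5.1, h6.1], by linarith [h5.2, h6.2]⟩
  refine (measure_mono h2).trans ?_
  rw [h, Real.volume_Icc, ← ENNReal.ofReal_mul (by linarith)]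
  apply le_of_eq
  congr 1
  ring

theorem V1_sqrt (n : ℕ) : volume (Sq (Real.sqrt n)) = ENNReal.ofReal n := by
  rw [volume_Sq _ (Real.sqrt_nonneg _), Real.sq_sqrt (Nat.cast_nonneg n)]

instance unif_prob (n : ℕ) [NeZero n] : IsProbabilityMeasure (unif n) := by
  refine ProbabilityTheory.cond_isProbabilityMeasure_of_finite ?_ ?_
  · rw [V1_sqrt]
    have : (0 : ℝ) < n := Nat.cast_pos.2 (Nat.pos_of_ne_zero (NeZero.ne n))
    exact (ENNReal.ofReal_pos.2 this).ne'
  · rw [V1_sqrt]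
    exact ENNReal.ofReal_ne_top

theorem V1_eq (n : ℕ) (hn : 1 ≤ n) (A : Set Pl) :
    unif n A = volume (Sq (Real.sqrt n) ∩ A) * ENNReal.ofReal (1 / n) := by
  have hn' : (0 : ℝ) < n := Nat.cast_pos.2 (by omega)
  rw [unif, ProbabilityTheory.cond_apply (measurableSet_Sq _), V1_sqrt, mul_comm, one_div,
    ENNReal.ofReal_inv_of_pos hn']

/-- `unif n A ≤ volume (A ∩ Sq) / n` (in fact equality). -/
theorem unif_le (n : ℕ) (hn : 1 ≤ n) (A : Set Pl) :
    unif n A ≤ volume (Sq (Real.sqrt n) ∩ A) * ENNReal.ofReal (1 / n) :=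
  (V1_eq n hn A).le

theorem unif_Sq (n : ℕ) (hn : 1 ≤ n) : ∀ᵐ x ∂(unif n), x ∈ Sq (Real.sqrt n) :=
  ProbabilityTheory.ae_cond_mem (measurableSet_Sq _)

/-- almost every point has both coordinates `< √n`, and for such a point `y` the probability of its
cell is `1 / m²`. -/
theorem unif_cell (n m : ℕ) (hn : 1 ≤ n) (hm : 1 ≤ m) :
    ∀ᵐ y ∂(unif n), unif n {x | cell (Real.sqrt n) m x = cell (Real.sqrt n) m y} =
      ENNReal.ofReal (1 / m ^ 2) := by
  have hn' : (0 : ℝ) < n := Nat.cast_pos.2 (by omega)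
  have hm' : (0 : ℝ) < m := Nat.cast_pos.2 (by omega)
  have hL : 0 < Real.sqrt n := Real.sqrt_pos.2 hn'
  have hline : ∀ i : Fin 2, ∀ᵐ x ∂(unif n), x i ≠ Real.sqrt n := by
    intro i
    have h1 : ∀ᵐ x ∂(volume : Measure Pl), x i ≠ Real.sqrt n := by
      rw [ae_iff]
      simp only [not_not]
      exact V1_line i _
    exact ProbabilityTheory.cond_absolutelyContinuous.ae_le h1
  filter_upwards [unif_Sq n hn, hline 0, hline 1] with y hy h0 h1
  set L := Real.sqrt n with hLdef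
  have hlt : ∀ i, y i < L := by
    intro i
    fin_cases i
    · exact lt_of_le_of_ne (hy 0).2 h0
    · exact lt_of_le_of_ne (hy 1).2 h1
  rw [V1_eq n hn]
  have hset : Sq L ∩ {x | cell L m x = cell L m y} =
      {x : Pl | ∀ i, x i ∈ (fun i : Fin 2 => Set.Ico ((⌊y i * m / L⌋ : ℝ) * (L / m))
        (((⌊y i * m / L⌋ : ℝ) + 1) * (L / m))) i} := by
    have hmain : ∀ i : Fin 2, ∀ x : Pl, ⌊x i * m / L⌋ = ⌊y i * m / L⌋ ↔
        x i ∈ Set.Ico ((⌊y i * m / L⌋ : ℝ) * (L / m)) (((⌊y i * m / L⌋ : ℝ) + 1) * (L / m)) := by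
      intro i x
      rw [Int.floor_eq_iff, Set.mem_Ico, le_div_iff₀ hL, div_lt_iff₀ hL, ← mul_div_assoc,
        ← mul_div_assoc, div_le_iff₀ hm', lt_div_iff₀ hm']
    have hbd : ∀ i : Fin 2, 0 ≤ (⌊y i * m / L⌋ : ℝ) ∧ (⌊y i * m / L⌋ : ℝ) + 1 ≤ m := by
      intro i
      constructor
      · have h2 : 0 ≤ y i * m / L := div_nonneg (mul_nonneg (hy i).1 hm'.le) hL.le
        exact_mod_cast Int.floor_nonneg.2 h2
      · have h2 : y i * m / L < m := by
          rw [div_lt_iff₀ hL, mul_comm]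
          exact mul_lt_mul_of_pos_left (hlt i) hm'
        have h3 : ⌊y i * m / L⌋ < (m : ℤ) := Int.floor_lt.2 (by exact_mod_cast h2)
        have h4 : ⌊y i * m / L⌋ + 1 ≤ (m : ℤ) := h3
        exact_mod_cast h4
    ext x
    constructor
    · rintro ⟨hx, hc⟩ i
      have hc' : (⌊x 0 * m / L⌋, ⌊x 1 * m / L⌋) = (⌊y 0 * m / L⌋, ⌊y 1 * m / L⌋) := hc
      rw [Prod.mk.injEq] at hc'
      fin_cases i
      · exact (hmain 0 x).1 hc'.1
      · exact (hmain 1 x).1 hc'.2
    · intro hx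
      refine ⟨fun i => ?_, ?_⟩
      · have h2 := hx i
        have h3 : (⌊y i * m / L⌋ : ℝ) * (L / m) ≤ x i := h2.1
        have h4 : x i < ((⌊y i * m / L⌋ : ℝ) + 1) * (L / m) := h2.2
        have h5 : 0 < L / m := div_pos hL hm'
        refine ⟨le_trans (mul_nonneg (hbd i).1 h5.le) h3, ?_⟩
        have h6 : ((⌊y i * m / L⌋ : ℝ) + 1) * (L / m) ≤ m * (L / m) :=
          mul_le_mul_of_nonneg_right (hbd i).2 h5.le
        have h7 : (m : ℝ) * (L / m) = L := by field_simp
        linarith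
      · show (⌊x 0 * m / L⌋, ⌊x 1 * m / L⌋) = (⌊y 0 * m / L⌋, ⌊y 1 * m / L⌋)
        rw [(hmain 0 x).2 (hx 0), (hmain 1 x).2 (hx 1)]
  rw [hset, V1_box]
  have hlen : ∀ k : ℝ, (k + 1) * (L / m) - k * (L / m) = L / m := fun k => by ring
  rw [Real.volume_Ico, Real.volume_Ico, hlen, hlen, ← ENNReal.ofReal_mul (div_pos hL hm').le,
    ← ENNReal.ofReal_mul (mul_nonneg (div_pos hL hm').le (div_pos hL hm').le)]
  congr 1
  have hLL : L * L = n := Real.mul_self_sqrt hn'.le
  field_simp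
  rw [sq, hLL]

end Pool.Agent.Helper42.MD
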