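import Mathlib
import Pool.Agent.Helper42.MD.Defs
import Pool.Agent.Helper42.MD.St.V1

set_option autoImplicit false

namespace Pool.Agent.Helper42.MD

open MeasureTheory

namespace D1

/-- Integrate out one coordinate. -/
private lemma lint_update {n : ℕ} {α : Type} [MeasurableSpace α] (μ : Measure α)
    [IsProbabilityMeasure μ] (i : Fin n) (f : (Fin n → α) → ENNReal) (hf : Measurable f) :
    ∫⁻ x, f x ∂(Measure.pi fun _ => μ) =
      ∫⁻ x, ∫⁻ y, f (Function.update x i y) ∂μ ∂(Measure.pi fun _ => μ) := by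
  have hg : Measurable (fun x : Fin n → α => ∫⁻ y, f (Function.update x i y) ∂μ) := by
    have h := hf.lmarginal (fun _ : Fin n => μ) (s := {i})
    rw [lmarginal_singleton] at h
    exact h
  refine lintegral_eq_of_lmarginal_eq (μ := fun _ : Fin n => μ) {i} hf hg ?_
  rw [lmarginal_singleton, lmarginal_singleton]
  funext x
  simp

/-- The probability of an agreement with a new coordinate. -/
private lemma same_inter {n : ℕ} {α ι : Type} [MeasurableSpace α] (μ : Measure α)
    [IsProbabilityMeasure μ] (c : α → ι) (q : ENNReal)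
    (hS : ∀ i j : Fin n, MeasurableSet {X : Fin n → α | c (X i) = c (X j)})
    (hq : ∀ᵐ y ∂μ, μ {x | c x = c y} = q) (i j : Fin n) (hij : i ≠ j)
    (A : Set (Fin n → α)) (hA : MeasurableSet A)
    (hAi : ∀ X y, Function.update X i y ∈ A ↔ X ∈ A) :
    (Measure.pi fun _ : Fin n => μ) ({X | c (X i) = c (X j)} ∩ A) =
      q * (Measure.pi fun _ : Fin n => μ) A := by
  have hm : MeasurableSet ({X : Fin n → α | c (X i) = c (X j)} ∩ A) := (hS i j).inter hA
  rw [← lintegral_indicator_one hm, lint_update μ i _ (measurable_one.indicator hm),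
    ← lintegral_indicator_one hA, ← lintegral_const_mul _ (measurable_one.indicator hA)]
  have hev : ∀ᵐ x ∂(Measure.pi fun _ : Fin n => μ), μ {y | c y = c (x j)} = q := by
    have h := (measurePreserving_eval (fun _ : Fin n => μ) j).quasiMeasurePreserving
    exact h.ae hq
  refine lintegral_congr_ae ?_
  filter_upwards [hev] with x hx
  by_cases hxA : x ∈ A
  · have h1 : ∀ y, ({X : Fin n → α | c (X i) = c (X j)} ∩ A).indicator (1 : (Fin n → α) → ENNReal)
        (Function.update x i y) = {y | c y = c (x j)}.indicator (1 : α → ENNReal) y := by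
      intro y
      have h2 := hAi x y
      by_cases hy : c y = c (x j)
      · rw [Set.indicator_of_mem, Set.indicator_of_mem]
        · rfl
        · exact hy
        · refine ⟨?_, h2.2 hxA⟩
          simpa [Function.update_of_ne hij.symm] using hy
      · rw [Set.indicator_of_notMem, Set.indicator_of_notMem]
        · exact hy
        · rintro ⟨h3, -⟩
          apply hy
          simpa [Function.update_of_ne hij.symm] using h3
    simp_rw [h1]
    rw [Set.indicator_of_mem hxA]
    have hcx : MeasurableSet {y | c y = c (x j)} := by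
      have h4 : {y | c y = c (x j)} = (fun y => Function.update x i y) ⁻¹'
          {X : Fin n → α | c (X i) = c (X j)} := by
        ext y
        simp [Function.update_of_ne hij.symm]
      rw [h4]
      exact (measurable_update x) (hS i j)
    rw [lintegral_indicator_one hcx, hx]
    simp
  · have h1 : ∀ y, ({X : Fin n → α | c (X i) = c (X j)} ∩ A).indicator (1 : (Fin n → α) → ENNReal)
        (Function.update x i y) = 0 := by
      intro y
      rw [Set.indicator_of_notMem]
      rintro ⟨-, h3⟩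
      exact hxA ((hAi x y).1 h3)
    simp_rw [h1]
    rw [Set.indicator_of_notMem hxA]
    simp

private lemma integral_four {Ω : Type} [MeasurableSpace Ω] (P : Measure Ω)
    [IsProbabilityMeasure P] (f g h : Ω → ℝ) (c : ℝ) (hf : Integrable f P) (hg : Integrable g P)
    (hh : Integrable h P) :
    ∫ ω, (f ω - g ω - h ω + c) ∂P = ∫ ω, f ω ∂P - ∫ ω, g ω ∂P - ∫ ω, h ω ∂P + c := by
  have e1 : ∫ ω, (f ω - g ω - h ω + c) ∂P = ∫ ω, (f ω - g ω - h ω) ∂P + ∫ _, c ∂P :=
    integral_add ((hf.sub hg).sub hh) (integrable_const c)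
  have e2 : ∫ ω, (f ω - g ω - h ω) ∂P = ∫ ω, (f ω - g ω) ∂P - ∫ ω, h ω ∂P :=
    integral_sub (hf.sub hg) hh
  have e3 : ∫ ω, (f ω - g ω) ∂P = ∫ ω, f ω ∂P - ∫ ω, g ω ∂P := integral_sub hf hg
  rw [e1, e2, e3]
  simp

/-- Variance of the number of pairwise independent events of equal probability. -/
private lemma variance_sum {Ω T : Type} [MeasurableSpace Ω] [DecidableEq T] (P : Measure Ω)
    [IsProbabilityMeasure P] (S : Finset T) (E : T → Set Ω) (hE : ∀ t ∈ S, MeasurableSet (E t))
    (q : ℝ) (h1 : ∀ t ∈ S, P.real (E t) = q)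
    (h2 : ∀ s ∈ S, ∀ t ∈ S, s ≠ t → P.real (E s ∩ E t) = q ^ 2) :
    ∫ ω, (∑ t ∈ S, ((E t).indicator (fun _ => (1 : ℝ)) ω - q)) ^ 2 ∂P =
      S.card * (q * (1 - q)) := by
  have hind : ∀ t ∈ S, Integrable ((E t).indicator (fun _ => (1 : ℝ))) P := fun t ht =>
    (integrable_const (1 : ℝ)).indicator (hE t ht)
  have hprod : ∀ s ∈ S, ∀ t ∈ S, ∫ ω, ((E s).indicator (fun _ => (1 : ℝ)) ω - q) *
      ((E t).indicator (fun _ => (1 : ℝ)) ω - q) ∂P = if s = t then q * (1 - q) else 0 := by
    intro s hs t ht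
    have e1 : ∀ ω, ((E s).indicator (fun _ => (1 : ℝ)) ω - q) *
        ((E t).indicator (fun _ => (1 : ℝ)) ω - q) =
        (E s ∩ E t).indicator (fun _ => (1 : ℝ)) ω - q * (E s).indicator (fun _ => (1 : ℝ)) ω
          - q * (E t).indicator (fun _ => (1 : ℝ)) ω + q ^ 2 := by
      intro ω
      by_cases h3 : ω ∈ E s <;> by_cases h4 : ω ∈ E t <;> simp [h3, h4] <;> ring
    simp_rw [e1]
    have i1 : Integrable ((E s ∩ E t).indicator (fun _ => (1 : ℝ))) P :=
      (integrable_const (1 : ℝ)).indicator ((hE s hs).inter (hE t ht))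
    rw [integral_four P _ _ _ _ i1 ((hind s hs).const_mul q) ((hind t ht).const_mul q),
      integral_const_mul, integral_const_mul, integral_indicator_const _ (hE s hs),
      integral_indicator_const _ (hE t ht),
      integral_indicator_const _ ((hE s hs).inter (hE t ht)), h1 s hs, h1 t ht]
    by_cases hst : s = t
    · subst hst
      rw [Set.inter_self, h1 s hs]
      simp
      ring
    · rw [h2 s hs t ht hst]
      simp [hst]
      ring
  have e2 : ∀ ω, (∑ t ∈ S, ((E t).indicator (fun _ => (1 : ℝ)) ω - q)) ^ 2 =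
      ∑ s ∈ S, ∑ t ∈ S, ((E s).indicator (fun _ => (1 : ℝ)) ω - q) *
      ((E t).indicator (fun _ => (1 : ℝ)) ω - q) := by
    intro ω
    rw [pow_two, Finset.sum_mul_sum]
  simp_rw [e2]
  have hint : ∀ s ∈ S, ∀ t ∈ S, Integrable (fun ω => ((E s).indicator (fun _ => (1 : ℝ)) ω - q) *
      ((E t).indicator (fun _ => (1 : ℝ)) ω - q)) P := by
    intro s hs t ht
    have e1 : ∀ ω, ((E s).indicator (fun _ => (1 : ℝ)) ω - q) *
        ((E t).indicator (fun _ => (1 : ℝ)) ω - q) =
        (E s ∩ E t).indicator (fun _ => (1 : ℝ)) ω - q * (E s).indicator (fun _ => (1 : ℝ)) ω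
          - q * (E t).indicator (fun _ => (1 : ℝ)) ω + q ^ 2 := by
      intro ω
      by_cases h3 : ω ∈ E s <;> by_cases h4 : ω ∈ E t <;> simp [h3, h4] <;> ring
    simp_rw [e1]
    have i1 : Integrable ((E s ∩ E t).indicator (fun _ => (1 : ℝ))) P :=
      (integrable_const (1 : ℝ)).indicator ((hE s hs).inter (hE t ht))
    exact (((i1.sub ((hind s hs).const_mul q)).sub ((hind t ht).const_mul q)).add
      (integrable_const _))
  rw [integral_finsetSum _ fun s hs => integrable_finsetSum _ fun t ht => hint s hs t ht]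
  have e3 : ∀ s ∈ S, ∫ ω, ∑ t ∈ S, ((E s).indicator (fun _ => (1 : ℝ)) ω - q) *
      ((E t).indicator (fun _ => (1 : ℝ)) ω - q) ∂P = q * (1 - q) := by
    intro s hs
    rw [integral_finsetSum _ fun t ht => hint s hs t ht,
      Finset.sum_congr rfl fun t ht => hprod s hs t ht]
    simp [hs]
  rw [Finset.sum_congr rfl e3, Finset.sum_const, nsmul_eq_mul]

/-- Chebyshev. -/
private lemma cheb {Ω T : Type} [MeasurableSpace Ω] [DecidableEq T] (P : Measure Ω)
    [IsProbabilityMeasure P] (S : Finset T) (E : T → Set Ω) (hE : ∀ t ∈ S, MeasurableSet (E t))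
    (q : ℝ) (hq : 0 < q) (h1 : ∀ t ∈ S, P.real (E t) = q)
    (h2 : ∀ s ∈ S, ∀ t ∈ S, s ≠ t → P.real (E s ∩ E t) = q ^ 2) (hS : 0 < S.card) :
    P.real {ω | ∑ t ∈ S, (E t).indicator (fun _ => (1 : ℝ)) ω < S.card * q / 2} ≤
      4 / (S.card * q) := by
  have hc : (0 : ℝ) < S.card := by exact_mod_cast hS
  have hind : ∀ t ∈ S, Measurable ((E t).indicator (fun _ => (1 : ℝ))) := fun t ht =>
    measurable_const.indicator (hE t ht)
  have hmeas : Measurable fun ω => (∑ t ∈ S, ((E t).indicator (fun _ => (1 : ℝ)) ω - q)) ^ 2 :=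
    (Finset.measurable_fun_sum S fun t ht => (hind t ht).sub_const q).pow_const 2
  have hbd : ∀ ω, ‖(∑ t ∈ S, ((E t).indicator (fun _ => (1 : ℝ)) ω - q)) ^ 2‖ ≤
      (S.card * (1 + q)) ^ 2 := by
    intro ω
    rw [norm_pow]
    refine pow_le_pow_left₀ (norm_nonneg _) ?_ 2
    refine (norm_sum_le _ _).trans ?_
    rw [← nsmul_eq_mul]
    refine Finset.sum_le_card_nsmul _ _ _ fun t _ => ?_
    rw [Real.norm_eq_abs, abs_le]
    by_cases h : ω ∈ E t
    · rw [Set.indicator_of_mem h]
      constructor <;> linarith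
    · rw [Set.indicator_of_notMem h]
      constructor <;> linarith
  have hint : Integrable (fun ω => (∑ t ∈ S, ((E t).indicator (fun _ => (1 : ℝ)) ω - q)) ^ 2) P :=
    Integrable.of_bound hmeas.aestronglyMeasurable _ (Filter.Eventually.of_forall hbd)
  have hmk := mul_meas_ge_le_integral_of_nonneg (μ := P)
    (Filter.Eventually.of_forall fun ω => sq_nonneg _) hint ((S.card * q / 2) ^ 2)
  rw [variance_sum P S E hE q h1 h2] at hmk
  have hsub : {ω | ∑ t ∈ S, (E t).indicator (fun _ => (1 : ℝ)) ω < S.card * q / 2} ⊆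
      {ω | (S.card * q / 2) ^ 2 ≤ (∑ t ∈ S, ((E t).indicator (fun _ => (1 : ℝ)) ω - q)) ^ 2} := by
    intro ω hω
    simp only [Set.mem_ofPred_eq] at hω ⊢
    rw [Finset.sum_sub_distrib, Finset.sum_const, nsmul_eq_mul]
    have : 0 < S.card * q := by positivity
    nlinarith
  have h3 : P.real {ω | ∑ t ∈ S, (E t).indicator (fun _ => (1 : ℝ)) ω < S.card * q / 2} ≤
      P.real {ω | (S.card * q / 2) ^ 2 ≤
        (∑ t ∈ S, ((E t).indicator (fun _ => (1 : ℝ)) ω - q)) ^ 2} := measureReal_mono hsub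
  have hpos : 0 < (S.card * q / 2) ^ 2 := by positivity
  rw [le_div_iff₀ (by positivity)]
  have h4 : (S.card * q / 2) ^ 2 * P.real {ω | ∑ t ∈ S, (E t).indicator (fun _ => (1 : ℝ)) ω <
      S.card * q / 2} ≤ S.card * (q * (1 - q)) :=
    (mul_le_mul_of_nonneg_left h3 hpos.le).trans hmk
  have h5 : S.card * (q * (1 - q)) ≤ S.card * q := by
    have : q * (1 - q) ≤ q := by nlinarith
    exact mul_le_mul_of_nonneg_left this hc.le
  have h6 : 0 < S.card * q := by positivity
  by_contra hcon
  push Not at hcon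
  have h7 : S.card * q * 4 < S.card * q * (P.real {ω | ∑ t ∈ S,
      (E t).indicator (fun _ => (1 : ℝ)) ω < S.card * q / 2} * (S.card * q)) :=
    mul_lt_mul_of_pos_left hcon h6
  nlinarith

/-- Markov. -/
private lemma markov {Ω T : Type} [MeasurableSpace Ω] (P : Measure Ω)
    [IsProbabilityMeasure P] (S : Finset T) (E : T → Set Ω) (hE : ∀ t ∈ S, MeasurableSet (E t))
    (q : ℝ) (h1 : ∀ t ∈ S, P.real (E t) = q) (a : ℝ) (ha : 0 < a) :
    P.real {ω | a ≤ ∑ t ∈ S, (E t).indicator (fun _ => (1 : ℝ)) ω} ≤ S.card * q / a := by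
  have hind : ∀ t ∈ S, Integrable ((E t).indicator (fun _ => (1 : ℝ))) P := fun t ht =>
    (integrable_const (1 : ℝ)).indicator (hE t ht)
  have hmk := mul_meas_ge_le_integral_of_nonneg (μ := P)
    (f := fun ω => ∑ t ∈ S, (E t).indicator (fun _ => (1 : ℝ)) ω)
    (Filter.Eventually.of_forall fun ω => Finset.sum_nonneg fun t _ =>
      Set.indicator_nonneg (fun _ _ => zero_le_one) ω)
    (integrable_finsetSum _ fun t ht => hind t ht) a
  rw [integral_finsetSum _ fun t ht => hind t ht] at hmk
  rw [Finset.sum_congr rfl fun t ht => by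
    rw [integral_indicator_const _ (hE t ht), h1 t ht, smul_eq_mul, mul_one]] at hmk
  rw [Finset.sum_const, nsmul_eq_mul] at hmk
  rw [le_div_iff₀ ha]
  linarith

private lemma card_pairs (n : ℕ) :
    (((Finset.univ.filter fun t : Fin n × Fin n => t.1 < t.2).card : ℕ) : ℝ) =
      n * (n - 1) / 2 := by
  have h1 : (Finset.univ.filter fun t : Fin n × Fin n => t.2 < t.1).card =
      (Finset.univ.filter fun t : Fin n × Fin n => t.1 < t.2).card := by
    refine Finset.card_equiv (Equiv.prodComm _ _) ?_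
    intro t
    simp
  have h2 : (Finset.univ.filter fun t : Fin n × Fin n => t.1 = t.2).card = n := by
    have : (Finset.univ.filter fun t : Fin n × Fin n => t.1 = t.2) =
        Finset.univ.image fun i : Fin n => (i, i) := by
      ext ⟨a, b⟩
      simp
    rw [this, Finset.card_image_of_injective _ fun a b h => (Prod.mk.inj h).1, Finset.card_fin]
  have h3 : (Finset.univ : Finset (Fin n × Fin n)) =
      ((Finset.univ.filter fun t : Fin n × Fin n => t.1 < t.2) ∪
      (Finset.univ.filter fun t : Fin n × Fin n => t.2 < t.1)) ∪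
      (Finset.univ.filter fun t : Fin n × Fin n => t.1 = t.2) := by
    ext ⟨a, b⟩
    simp only [Finset.mem_univ, Finset.mem_union, Finset.mem_filter, true_and, true_iff]
    rcases lt_trichotomy a b with h | h | h
    · exact Or.inl (Or.inl h)
    · exact Or.inr h
    · exact Or.inl (Or.inr h)
  have h4 : (Finset.univ : Finset (Fin n × Fin n)).card = n * n := by
    simp
  rw [h3, Finset.card_union_of_disjoint, Finset.card_union_of_disjoint, h1, h2] at h4
  · have h5 : ((((Finset.univ.filter fun t : Fin n × Fin n => t.1 < t.2).card +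
        (Finset.univ.filter fun t : Fin n × Fin n => t.1 < t.2).card + n : ℕ)) : ℝ) =
        ((n * n : ℕ) : ℝ) := by rw [h4]
    push_cast at h5
    linarith
  · rw [Finset.disjoint_left]
    intro t ht ht'
    simp only [Finset.mem_filter, Finset.mem_univ, true_and] at ht ht'
    exact absurd ht (not_lt.2 ht'.le)
  · rw [Finset.disjoint_left]
    intro t ht ht'
    simp only [Finset.mem_filter, Finset.mem_union, Finset.mem_univ, true_and] at ht ht'
    rcases ht with ht | ht
    · exact ht.ne ht'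
    · exact ht.ne' ht'

private lemma card_triples (n : ℕ) (hn : 2 ≤ n) :
    (((Finset.univ.filter fun t : Fin n × Fin n × Fin n => t.1 < t.2.1 ∧ t.2.1 < t.2.2).card : ℕ)
      : ℝ) ≤ n * (n * (n - 1)) / 6 := by
  have h1 : (Finset.univ.filter fun t : Fin n × Fin n × Fin n =>
      t.1 < t.2.1 ∧ t.2.1 < t.2.2).card ≤ ((Finset.univ : Finset (Fin n)).powersetCard 3).card := by
    refine Finset.card_le_card_of_injOn (fun t => {t.1, t.2.1, t.2.2}) ?_ ?_
    · rintro ⟨a, b, c⟩ h
      simp only [Finset.coe_filter, Finset.mem_univ, true_and, Set.mem_ofPred_eq] at h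
      rw [Finset.mem_coe, Finset.mem_powersetCard]
      refine ⟨Finset.subset_univ _, ?_⟩
      exact Finset.card_eq_three.2 ⟨a, b, c, h.1.ne, (h.1.trans h.2).ne, h.2.ne, rfl⟩
    · rintro ⟨a, b, c⟩ h ⟨a', b', c'⟩ h' heq
      simp only [Finset.coe_filter, Finset.mem_univ, true_and, Set.mem_ofPred_eq] at h h'
      simp only at heq
      have e1 : a ∈ ({a', b', c'} : Finset (Fin n)) := by rw [← heq]; simp
      have e2 : b ∈ ({a', b', c'} : Finset (Fin n)) := by rw [← heq]; simp
      have e3 : c ∈ ({a', b', c'} : Finset (Fin n)) := by rw [← heq]; simp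
      have e4 : a' ∈ ({a, b, c} : Finset (Fin n)) := by rw [heq]; simp
      simp only [Finset.mem_insert, Finset.mem_singleton] at e1 e2 e3 e4
      simp only [Prod.mk.injEq]
      simp only [Fin.ext_iff, Fin.lt_def] at *
      omega
  rw [Finset.card_powersetCard, Finset.card_fin] at h1
  have h2 := Nat.descFactorial_eq_factorial_mul_choose n 3
  have h3 : n.descFactorial 3 = (n - 2) * ((n - 1) * n) := by
    simp [Nat.descFactorial_succ]
  rw [h3] at h2
  have h4 : 6 * (Finset.univ.filter fun t : Fin n × Fin n × Fin n =>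
      t.1 < t.2.1 ∧ t.2.1 < t.2.2).card ≤ n * ((n - 1) * n) := by
    calc _ ≤ 6 * n.choose 3 := Nat.mul_le_mul_left _ h1
      _ = (n - 2) * ((n - 1) * n) := by rw [h2]; simp [Nat.factorial]
      _ ≤ _ := Nat.mul_le_mul_right _ (Nat.sub_le _ _)
  have h5 : ((6 * (Finset.univ.filter fun t : Fin n × Fin n × Fin n =>
      t.1 < t.2.1 ∧ t.2.1 < t.2.2).card : ℕ) : ℝ) ≤ ((n * ((n - 1) * n) : ℕ) : ℝ) := by
    exact_mod_cast h4
  push_cast [Nat.cast_sub (show 1 ≤ n by omega)] at h5
  linarith

private lemma meas_cell (L : ℝ) (m : ℕ) : Measurable (cell L m) := by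
  unfold cell
  refine Measurable.prodMk ?_ ?_
  · exact Int.measurable_floor.comp (by fun_prop)
  · exact Int.measurable_floor.comp (by fun_prop)

private lemma meas_same (L : ℝ) (n m : ℕ) (i j : Fin n) :
    MeasurableSet {X : Fin n → Pl | cell L m (X i) = cell L m (X j)} :=
  measurableSet_eq_fun ((meas_cell L m).comp (measurable_pi_apply i))
    ((meas_cell L m).comp (measurable_pi_apply j))

end D1

/-- MD-D1 (moments). Let `Same X i j` be: `X i` and `X j` are in the same cell. If the coordinate `i` does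
not occur in the event `A`, then the probability of `Same X i j ∧ A` is `1 / m ^ 2` times that of `A`
(integrate out the coordinate `i`, `unif_cell`). So for pairs `i < j` the events have probability
`1 / m ^ 2`, they are pairwise independent (two different pairs: some index is in only one of them), and
a triple has probability `1 / m ^ 4`. Chebyshev for the number `P2` of pairs with mean
`μ = n * (n - 1) / (2 * m ^ 2)` and variance `≤ μ`: `P2 < μ / 2` has probability `≤ 4 / μ`. Markov for the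
number `P3` of triples with mean `≤ n * μ / (3 * m ^ 2)`: `P3 > μ / 8` has probability
`≤ 8 * n / (3 * m ^ 2)`. -/
theorem moments (n m : ℕ) (hn : 2 ≤ n) (hm : 1 ≤ m) :
    law n {X | ¬ ((n : ℝ) * (n - 1) / (8 * m ^ 2) +
        2 * ((Finset.univ.filter fun t : Fin n × Fin n × Fin n => t.1 < t.2.1 ∧ t.2.1 < t.2.2 ∧
          cell (Real.sqrt n) m (X t.1) = cell (Real.sqrt n) m (X t.2.1) ∧
          cell (Real.sqrt n) m (X t.2.1) = cell (Real.sqrt n) m (X t.2.2)).card : ℝ) ≤
        ((Finset.univ.filter fun t : Fin n × Fin n => t.1 < t.2 ∧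
          cell (Real.sqrt n) m (X t.1) = cell (Real.sqrt n) m (X t.2)).card : ℝ))} ≤
      ENNReal.ofReal (8 * m ^ 2 / (n * (n - 1)) + 8 * n / (3 * m ^ 2)) := by
  classical
  have : NeZero n := ⟨by omega⟩
  have hnR : (2 : ℝ) ≤ n := by exact_mod_cast hn
  have hmR : (1 : ℝ) ≤ m := by exact_mod_cast hm
  have : IsProbabilityMeasure (law n) := by unfold law; infer_instance
  set q : ℝ := 1 / m ^ 2 with hqdef
  have hq : 0 < q := by positivity
  set c : Pl → ℤ × ℤ := cell (Real.sqrt n) m with hc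
  have hS : ∀ i j : Fin n, MeasurableSet {X : Fin n → Pl | c (X i) = c (X j)} := fun i j =>
    D1.meas_same _ n m i j
  have hcell := unif_cell n m (by omega) hm
  have key : ∀ i j : Fin n, i ≠ j → ∀ A : Set (Fin n → Pl), MeasurableSet A →
      (∀ X y, Function.update X i y ∈ A ↔ X ∈ A) →
      (law n).real ({X | c (X i) = c (X j)} ∩ A) = q * (law n).real A := by
    intro i j hij A hA hAi
    have h := D1.same_inter (unif n) c (ENNReal.ofReal (1 / m ^ 2)) hS hcell i j hij A hA hAi
    rw [measureReal_def, law, h, ENNReal.toReal_mul, ENNReal.toReal_ofReal (by positivity)]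
    rfl
  have hpair : ∀ i j : Fin n, i ≠ j → (law n).real {X | c (X i) = c (X j)} = q := by
    intro i j hij
    have h := key i j hij Set.univ MeasurableSet.univ (fun _ _ => by simp)
    rw [Set.inter_univ] at h
    rw [h]
    simp
  have hswap : ∀ i j : Fin n, {X : Fin n → Pl | c (X i) = c (X j)} =
      {X | c (X j) = c (X i)} := by
    intro i j
    ext X
    exact eq_comm
  have hupd : ∀ i j k : Fin n, i ≠ j → i ≠ k → ∀ (X : Fin n → Pl) (y : Pl),
      Function.update X i y ∈ {X : Fin n → Pl | c (X j) = c (X k)} ↔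
      X ∈ {X : Fin n → Pl | c (X j) = c (X k)} := by
    intro i j k hj hk X y
    simp only [Set.mem_ofPred_eq, Function.update_of_ne hj.symm, Function.update_of_ne hk.symm]
  -- pairs
  have hcheb := D1.cheb (law n) (Finset.univ.filter fun t : Fin n × Fin n => t.1 < t.2)
    (fun t => {X | c (X t.1) = c (X t.2)}) (fun t _ => hS t.1 t.2) q hq
    (fun t ht => hpair _ _ (Finset.mem_filter.1 ht).2.ne) (by
      intro s hs t ht hst
      have hs' := (Finset.mem_filter.1 hs).2
      have ht' := (Finset.mem_filter.1 ht).2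
      by_cases h1 : s.1 ≠ t.1 ∧ s.1 ≠ t.2
      · rw [key s.1 s.2 hs'.ne _ (hS t.1 t.2) (hupd s.1 t.1 t.2 h1.1 h1.2),
          hpair _ _ ht'.ne]
        ring
      · have h2 : s.2 ≠ t.1 ∧ s.2 ≠ t.2 := by
          refine ⟨fun h3 => ?_, fun h3 => ?_⟩
          · apply h1
            refine ⟨fun h4 => ?_, fun h4 => ?_⟩
            · exact hs'.ne (h4.trans h3.symm)
            · have h5 : t.2 < t.1 := by rw [← h3, ← h4]; exact hs'
              exact absurd h5 (not_lt.2 ht'.le)
          · apply h1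
            refine ⟨fun h4 => ?_, fun h4 => ?_⟩
            · exact hst (Prod.ext h4 h3)
            · exact hs'.ne (h4.trans h3.symm)
        rw [hswap s.1 s.2, key s.2 s.1 hs'.ne' _ (hS t.1 t.2) (hupd s.2 t.1 t.2 h2.1 h2.2),
          hpair _ _ ht'.ne]
        ring)
    (by
      refine Finset.card_pos.2 ⟨(⟨0, by omega⟩, ⟨1, by omega⟩), ?_⟩
      rw [Finset.mem_filter]
      exact ⟨Finset.mem_univ _, Fin.mk_lt_mk.2 Nat.zero_lt_one⟩)
  -- triples
  have hmark := D1.markov (law n)
    (Finset.univ.filter fun t : Fin n × Fin n × Fin n => t.1 < t.2.1 ∧ t.2.1 < t.2.2)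
    (fun t => {X | c (X t.1) = c (X t.2.1)} ∩ {X | c (X t.2.1) = c (X t.2.2)})
    (fun t _ => (hS _ _).inter (hS _ _)) (q * q) (by
      intro t ht
      have ht' := (Finset.mem_filter.1 ht).2
      rw [key t.1 t.2.1 ht'.1.ne _ (hS _ _) (hupd t.1 t.2.1 t.2.2 ht'.1.ne
        (ht'.1.trans ht'.2).ne), hpair _ _ ht'.2.ne])
    ((n : ℝ) * (n - 1) / (2 * m ^ 2) / 8) (by
      have : (0 : ℝ) < n - 1 := by linarith
      positivity)
  have hN := D1.card_pairs n
  have hM := D1.card_triples n hn
  set P2 : (Fin n → Pl) → ℝ := fun X => ∑ t ∈ Finset.univ.filter fun t : Fin n × Fin n =>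
    t.1 < t.2, ({X | c (X t.1) = c (X t.2)} : Set (Fin n → Pl)).indicator (fun _ => (1 : ℝ)) X
    with hP2
  set P3 : (Fin n → Pl) → ℝ := fun X => ∑ t ∈ Finset.univ.filter
    fun t : Fin n × Fin n × Fin n => t.1 < t.2.1 ∧ t.2.1 < t.2.2,
    ({X | c (X t.1) = c (X t.2.1)} ∩ {X | c (X t.2.1) = c (X t.2.2)} :
      Set (Fin n → Pl)).indicator (fun _ => (1 : ℝ)) X with hP3
  have e2 : ∀ X : Fin n → Pl, ((Finset.univ.filter fun t : Fin n × Fin n => t.1 < t.2 ∧
      c (X t.1) = c (X t.2)).card : ℝ) = P2 X := by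
    intro X
    rw [hP2, ← Finset.filter_filter, Finset.card_filter]
    push_cast
    refine Finset.sum_congr rfl fun t _ => ?_
    simp [Set.indicator_apply]
  have e3 : ∀ X : Fin n → Pl, ((Finset.univ.filter fun t : Fin n × Fin n × Fin n =>
      t.1 < t.2.1 ∧ t.2.1 < t.2.2 ∧ c (X t.1) = c (X t.2.1) ∧
      c (X t.2.1) = c (X t.2.2)).card : ℝ) = P3 X := by
    intro X
    have e4 : (Finset.univ.filter fun t : Fin n × Fin n × Fin n =>
      t.1 < t.2.1 ∧ t.2.1 < t.2.2 ∧ c (X t.1) = c (X t.2.1) ∧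
      c (X t.2.1) = c (X t.2.2)) = (Finset.univ.filter fun t : Fin n × Fin n × Fin n =>
      t.1 < t.2.1 ∧ t.2.1 < t.2.2).filter fun t => c (X t.1) = c (X t.2.1) ∧
      c (X t.2.1) = c (X t.2.2) := by
      ext t
      simp only [Finset.mem_filter, Finset.mem_univ, true_and, and_assoc]
    rw [hP3, e4, Finset.card_filter]
    push_cast
    refine Finset.sum_congr rfl fun t _ => ?_
    simp [Set.indicator_apply]
  have hsub : {X | ¬ ((n : ℝ) * (n - 1) / (8 * m ^ 2) +
        2 * ((Finset.univ.filter fun t : Fin n × Fin n × Fin n => t.1 < t.2.1 ∧ t.2.1 < t.2.2 ∧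
          c (X t.1) = c (X t.2.1) ∧ c (X t.2.1) = c (X t.2.2)).card : ℝ) ≤
        ((Finset.univ.filter fun t : Fin n × Fin n => t.1 < t.2 ∧
          c (X t.1) = c (X t.2)).card : ℝ))} ⊆
      {X | P2 X < ((Finset.univ.filter fun t : Fin n × Fin n => t.1 < t.2).card : ℝ) * q / 2} ∪
      {X | (n : ℝ) * (n - 1) / (2 * m ^ 2) / 8 ≤ P3 X} := by
    intro X hX
    simp only [Set.mem_ofPred_eq] at hX
    rw [e2, e3] at hX
    by_contra hcon
    simp only [Set.mem_union, Set.mem_ofPred_eq, not_or, not_lt, not_le] at hcon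
    apply hX
    rw [hN] at hcon
    have h5 : (n : ℝ) * (n - 1) / 2 * q / 2 = n * (n - 1) / (4 * m ^ 2) := by
      rw [hqdef]
      field_simp
      ring
    have h6 : (n : ℝ) * (n - 1) / (2 * m ^ 2) / 8 = n * (n - 1) / (16 * m ^ 2) := by
      field_simp
      ring
    rw [h5, h6] at hcon
    have h7 : (n : ℝ) * (n - 1) / (8 * m ^ 2) + 2 * (n * (n - 1) / (16 * m ^ 2)) =
        n * (n - 1) / (4 * m ^ 2) := by
      field_simp
      ring
    linarith [hcon.1, hcon.2]
  have hfin : (law n).real {X | ¬ ((n : ℝ) * (n - 1) / (8 * m ^ 2) +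
        2 * ((Finset.univ.filter fun t : Fin n × Fin n × Fin n => t.1 < t.2.1 ∧ t.2.1 < t.2.2 ∧
          c (X t.1) = c (X t.2.1) ∧ c (X t.2.1) = c (X t.2.2)).card : ℝ) ≤
        ((Finset.univ.filter fun t : Fin n × Fin n => t.1 < t.2 ∧
          c (X t.1) = c (X t.2)).card : ℝ))} ≤
      8 * m ^ 2 / (n * (n - 1)) + 8 * n / (3 * m ^ 2) := by
    refine (measureReal_mono hsub).trans ((measureReal_union_le _ _).trans (add_le_add ?_ ?_))
    · refine hcheb.trans (le_of_eq ?_)
      rw [hN, hqdef]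
      have : (n : ℝ) - 1 ≠ 0 := by linarith
      field_simp
      ring
    · refine hmark.trans ?_
      have h8 : (0 : ℝ) < n - 1 := by linarith
      rw [div_le_iff₀ (by positivity)]
      refine (mul_le_mul_of_nonneg_right hM (by positivity)).trans (le_of_eq ?_)
      rw [hqdef]
      field_simp
      ring
  rw [← ofReal_measureReal]
  exact ENNReal.ofReal_le_ofReal hfin

end Pool.Agent.Helper42.MD
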