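import Mathlib
import Pool.Agent.Helper42.MD.Defs

set_option autoImplicit false

namespace Pool.Agent.Helper42.MD

open MeasureTheory

private def d2S {n : ℕ} {C : Type} [DecidableEq C] (Y : Fin n → C) : Finset (Fin n × Fin n) :=
  Finset.univ.filter fun t : Fin n × Fin n => t.1 < t.2 ∧ Y t.1 = Y t.2 ∧
    ∀ k, k < t.2 → Y k = Y t.1 → k = t.1

private def d2T {n : ℕ} {C : Type} [DecidableEq C] (Y : Fin n → C) :
    Finset (Fin n × Fin n × Fin n) :=
  Finset.univ.filter fun t : Fin n × Fin n × Fin n => t.1 < t.2.1 ∧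
        t.2.1 < t.2.2 ∧ Y t.1 = Y t.2.1 ∧ Y t.2.1 = Y t.2.2

private def d2P {n : ℕ} {C : Type} [DecidableEq C] (Y : Fin n → C) : Finset (Fin n × Fin n) :=
  Finset.univ.filter fun t : Fin n × Fin n => t.1 < t.2 ∧ Y t.1 = Y t.2

private lemma d2_count {n : ℕ} {C : Type} [DecidableEq C] (Y : Fin n → C) :
    (d2P Y).card ≤ (d2S Y).card + 2 * (d2T Y).card := by
  classical
  have hsub : d2P Y ⊆ d2S Y ∪ ((d2T Y).image (fun t => (t.1, t.2.2)) ∪
      (d2T Y).image (fun t => (t.2.1, t.2.2))) := by
    rintro ⟨a, b⟩ h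
    simp only [d2P, Finset.mem_filter, Finset.mem_univ, true_and] at h
    obtain ⟨h1, h2⟩ := h
    by_cases hs : ∀ k, k < b → Y k = Y a → k = a
    · refine Finset.mem_union_left _ ?_
      simp only [d2S, Finset.mem_filter, Finset.mem_univ, true_and]
      exact ⟨h1, h2, hs⟩
    · push Not at hs
      obtain ⟨k, hk, hY, hne⟩ := hs
      refine Finset.mem_union_right _ ?_
      rcases lt_or_gt_of_ne hne with h3 | h3
      · refine Finset.mem_union_right _ ?_
        refine Finset.mem_image.mpr ⟨(k, a, b), ?_, rfl⟩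
        simp only [d2T, Finset.mem_filter, Finset.mem_univ, true_and]
        exact ⟨h3, h1, hY, h2⟩
      · refine Finset.mem_union_left _ ?_
        refine Finset.mem_image.mpr ⟨(a, k, b), ?_, rfl⟩
        simp only [d2T, Finset.mem_filter, Finset.mem_univ, true_and]
        exact ⟨h3, hk, hY.symm, hY.trans h2⟩
  calc (d2P Y).card ≤ _ := Finset.card_le_card hsub
    _ ≤ (d2S Y).card + ((d2T Y).image (fun t => (t.1, t.2.2)) ∪
      (d2T Y).image (fun t => (t.2.1, t.2.2))).card := Finset.card_union_le _ _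
    _ ≤ (d2S Y).card + (((d2T Y).image (fun t => (t.1, t.2.2))).card +
      ((d2T Y).image (fun t => (t.2.1, t.2.2))).card) := by
        gcongr
        exact Finset.card_union_le _ _
    _ ≤ (d2S Y).card + ((d2T Y).card + (d2T Y).card) := by
        gcongr <;> exact Finset.card_image_le
    _ = _ := by ring

/-- MD-D2 (combinatorics). For a class with `c` elements, `c.choose 2 ≤ 2 * c.choose 3 + 1` if `c ≥ 2`
(equality for `c = 2, 3`), so the number of pairs minus twice the number of triples is at most the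
number of classes with at least two elements; take one pair from each of them (for instance the two
smallest indices). -/
theorem pairs_of_cells {n : ℕ} {C : Type} [DecidableEq C] (Y : Fin n → C) (M : ℕ)
    (h : M + 2 * (Finset.univ.filter fun t : Fin n × Fin n × Fin n => t.1 < t.2.1 ∧
        t.2.1 < t.2.2 ∧ Y t.1 = Y t.2.1 ∧ Y t.2.1 = Y t.2.2).card ≤
      (Finset.univ.filter fun t : Fin n × Fin n => t.1 < t.2 ∧ Y t.1 = Y t.2).card) :
    ∃ p : Fin M → Fin n × Fin n, Dj p ∧ ∀ i, Y (p i).1 = Y (p i).2 := by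
  have h1 := d2_count Y
  have h2 : M ≤ (d2S Y).card := by
    have h3 : M + 2 * (d2T Y).card ≤ (d2P Y).card := h
    omega
  let e := (d2S Y).equivFin.symm
  let p : Fin M → Fin n × Fin n := fun i => (e (Fin.castLE h2 i)).1
  have hp : ∀ i, p i ∈ d2S Y := fun i => (e (Fin.castLE h2 i)).2
  have hinj : Function.Injective p := by
    intro i j hij
    have := e.injective (Subtype.ext hij)
    exact Fin.castLE_injective h2 this
  have hp' : ∀ i, (p i).1 < (p i).2 ∧ Y (p i).1 = Y (p i).2 ∧
      ∀ k, k < (p i).2 → Y k = Y (p i).1 → k = (p i).1 := by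
    intro i
    have := hp i
    simpa only [d2S, Finset.mem_filter, Finset.mem_univ, true_and] using this
  refine ⟨p, ⟨fun i => (hp' i).1.ne, ?_⟩, fun i => (hp' i).2.1⟩
  intro i j hij
  obtain ⟨a1, a2, a3⟩ := hp' i
  obtain ⟨b1, b2, b3⟩ := hp' j
  refine ⟨fun he => ?_, fun he => ?_, fun he => ?_⟩
  · -- equal first components
    apply hij
    apply hinj
    refine Prod.ext he ?_
    rcases lt_trichotomy (p i).2 (p j).2 with h3 | h3 | h3
    · have := b3 (p i).2 h3 (by rw [← a2, he])
      rw [this, ← he] at a1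
      exact absurd a1 (lt_irrefl _)
    · exact h3
    · have := a3 (p j).2 h3 (by rw [← b2, he])
      rw [this, he] at b1
      exact absurd b1 (lt_irrefl _)
  · have h3 : (p j).1 < (p i).2 := by
      calc (p j).1 < (p j).2 := b1
        _ = (p i).1 := he.symm
        _ < (p i).2 := a1
    have := a3 (p j).1 h3 (by rw [b2, he])
    rw [this, ← he] at b1
    exact absurd b1 (lt_irrefl _)
  · have h3 : (p i).1 < (p j).2 := by rw [← he]; exact a1
    have := b3 (p i).1 h3 (by rw [a2, he, b2])
    exact hij (hinj (Prod.ext this he))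

end Pool.Agent.Helper42.MD
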