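import Mathlib
import Pool.Agent.Helper42.MD.Defs
import Pool.Agent.Helper42.MD.St.V1
import Pool.Agent.Helper42.MD.St.D1
import Pool.Agent.Helper42.MD.St.D2

set_option autoImplicit false

namespace Pool.Agent.Helper42.MD

open MeasureTheory

private theorem dist_of_cell {L ε : ℝ} {m : ℕ} (hL : 0 < L) (hm : 0 < m) (hε : 0 < ε)
    (hs : L / m ≤ ε / 2) {x y : Pl} (h : cell L m x = cell L m y) : dist x y ≤ ε := by
  have hm' : (0 : ℝ) < m := by exact_mod_cast hm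
  have key : ∀ i, ⌊x i * m / L⌋ = ⌊y i * m / L⌋ → |x i - y i| ≤ ε / 2 := by
    intro i hi
    have h1 := Int.abs_sub_lt_one_of_floor_eq_floor hi
    have h2 : x i * m / L - y i * m / L = (x i - y i) * (m / L) := by
      field_simp
    rw [h2, abs_mul, abs_of_pos (div_pos hm' hL)] at h1
    have h3 : |x i - y i| = |x i - y i| * (m / L) * (L / m) := by
      field_simp
    rw [h3]
    calc |x i - y i| * (m / L) * (L / m) ≤ 1 * (L / m) :=
          mul_le_mul_of_nonneg_right h1.le (div_pos hL hm').le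
      _ ≤ ε / 2 := by rw [one_mul]; exact hs
  have h0 : |x 0 - y 0| ≤ ε / 2 := key 0 (congrArg Prod.fst h)
  have h1 : |x 1 - y 1| ≤ ε / 2 := key 1 (congrArg Prod.snd h)
  rw [EuclideanSpace.dist_eq, Fin.sum_univ_two]
  rw [Real.sqrt_le_left hε.le]
  rw [Real.dist_eq, Real.dist_eq]
  have h2 : |x 0 - y 0| ^ 2 ≤ (ε / 2) ^ 2 := pow_le_pow_left₀ (abs_nonneg _) h0 2
  have h3 : |x 1 - y 1| ^ 2 ≤ (ε / 2) ^ 2 := pow_le_pow_left₀ (abs_nonneg _) h1 2
  nlinarith [sq_nonneg ε]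

/-- MD-D3. `m = ⌈2 * √n / ε⌉`, so the side `√n / m` of a cell is at most `ε / 2` and two points of a cell
have distance at most `ε`; `4 * n / ε ^ 2 ≤ m ^ 2 ≤ 9 * n / ε ^ 2`. `moments` and `pairs_of_cells` with
`n * (n - 1) / (8 * m ^ 2) ≥ (n - 1) * ε ^ 2 / 72 ≥ n * ε ^ 2 / 144 ≥ M`. The error is at most
`8 * 9 / ((n - 1) * ε ^ 2) + 8 * ε ^ 2 / 12`. -/
theorem many_pairs (n M : ℕ) (hn : 2 ≤ n) (ε : ℝ) (hε : 0 < ε) (hε1 : ε ≤ 1)
    (hM : (M : ℝ) ≤ n * ε ^ 2 / 144) :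
    law n {X | ¬ ∃ p : Fin M → Fin n × Fin n, Dj p ∧
      ∀ i, dist (X (p i).1) (X (p i).2) ≤ ε} ≤ ENNReal.ofReal (144 / (n * ε ^ 2) + ε ^ 2) := by
  classical
  have hn' : (2 : ℝ) ≤ n := by exact_mod_cast hn
  have hn0 : (0 : ℝ) < n := by linarith
  obtain ⟨L, hLdef⟩ : ∃ L, L = Real.sqrt n := ⟨_, rfl⟩
  have hL0 : 0 < L := by rw [hLdef]; exact Real.sqrt_pos.2 hn0
  have hLL : L * L = n := by rw [hLdef]; exact Real.mul_self_sqrt hn0.le
  have hL1 : 1 ≤ L := by nlinarith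
  obtain ⟨m, hmdef⟩ : ∃ m : ℕ, m = ⌈2 * L / ε⌉₊ := ⟨_, rfl⟩
  have hm1 : 2 * L / ε ≤ m := by rw [hmdef]; exact Nat.le_ceil _
  have hpos : 0 < 2 * L / ε := by positivity
  have hm2 : (m : ℝ) < 2 * L / ε + 1 := by rw [hmdef]; exact Nat.ceil_lt_add_one hpos.le
  have hm0 : (0 : ℝ) < m := lt_of_lt_of_le hpos hm1
  have hmn : 0 < m := by exact_mod_cast hm0
  have hLε : 1 ≤ L / ε := by
    rw [le_div_iff₀ hε]
    linarith
  have hm3 : (m : ℝ) ≤ 3 * (L / ε) := by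
    have : 2 * L / ε = 2 * (L / ε) := by ring
    linarith
  have hm4 : 2 * (L / ε) ≤ m := by
    have : 2 * L / ε = 2 * (L / ε) := by ring
    linarith
  have hq : L / ε * (L / ε) = n / ε ^ 2 := by
    rw [← hLL]
    field_simp
  have hmsq1 : (m : ℝ) ^ 2 ≤ 9 * (n / ε ^ 2) := by
    rw [← hq]
    nlinarith
  have hmsq2 : 4 * (n / ε ^ 2) ≤ (m : ℝ) ^ 2 := by
    rw [← hq]
    nlinarith
  have hside : L / m ≤ ε / 2 := by
    rw [div_le_iff₀ hm0]
    have h1 : 2 * (L / ε) * ε = 2 * L := by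
      field_simp
    nlinarith
  have hε2 : 0 < ε ^ 2 := by positivity
  have hMm : (M : ℝ) ≤ n * (n - 1) / (8 * m ^ 2) := by
    have h1 : (m : ℝ) ^ 2 * ε ^ 2 ≤ 9 * n := by
      have := mul_le_mul_of_nonneg_right hmsq1 hε2.le
      have h2 : 9 * (n / ε ^ 2) * ε ^ 2 = 9 * n := by
        field_simp
      linarith
    rw [le_div_iff₀ (by positivity)]
    have h3 : (M : ℝ) * (8 * m ^ 2) ≤ n * ε ^ 2 / 144 * (8 * m ^ 2) :=
      mul_le_mul_of_nonneg_right hM (by positivity)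
    have h4 : n * ε ^ 2 / 144 * (8 * m ^ 2) = n * ((m : ℝ) ^ 2 * ε ^ 2) / 18 := by ring
    have h5 : n * ((m : ℝ) ^ 2 * ε ^ 2) ≤ n * (9 * n) := mul_le_mul_of_nonneg_left h1 hn0.le
    nlinarith
  have hmom := moments n m hn hmn
  rw [← hLdef] at hmom
  refine (measure_mono ?_).trans (hmom.trans (ENNReal.ofReal_le_ofReal ?_))
  · intro X hX hle
    apply hX
    have h1 : M + 2 * (Finset.univ.filter fun t : Fin n × Fin n × Fin n => t.1 < t.2.1 ∧
        t.2.1 < t.2.2 ∧ cell L m (X t.1) = cell L m (X t.2.1) ∧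
          cell L m (X t.2.1) = cell L m (X t.2.2)).card ≤
      (Finset.univ.filter fun t : Fin n × Fin n => t.1 < t.2 ∧
        cell L m (X t.1) = cell L m (X t.2)).card := by
      have h2 := (add_le_add_left hMm _).trans hle
      exact_mod_cast h2
    obtain ⟨p, hp, hp'⟩ := pairs_of_cells (fun i => cell L m (X i)) M h1
    exact ⟨p, hp, fun i => dist_of_cell hL0 hmn hε hside (hp' i)⟩
  · have h1 : 8 * (m : ℝ) ^ 2 / (n * (n - 1)) ≤ 144 / (n * ε ^ 2) := by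
      rw [div_le_div_iff₀ (by nlinarith) (by positivity)]
      have h2 : (m : ℝ) ^ 2 * ε ^ 2 ≤ 9 * n := by
        have := mul_le_mul_of_nonneg_right hmsq1 hε2.le
        have h2 : 9 * (n / ε ^ 2) * ε ^ 2 = 9 * n := by
          field_simp
        linarith
      have h3 : 8 * (m : ℝ) ^ 2 * (n * ε ^ 2) = 8 * n * ((m : ℝ) ^ 2 * ε ^ 2) := by ring
      have h4 : 8 * n * ((m : ℝ) ^ 2 * ε ^ 2) ≤ 8 * n * (9 * n) :=
        mul_le_mul_of_nonneg_left h2 (by positivity)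
      nlinarith
    have h2 : 8 * (n : ℝ) / (3 * m ^ 2) ≤ ε ^ 2 := by
      rw [div_le_iff₀ (by positivity)]
      have h3 : 4 * (n : ℝ) ≤ m ^ 2 * ε ^ 2 := by
        have := mul_le_mul_of_nonneg_right hmsq2 hε2.le
        have h4 : 4 * (n / ε ^ 2) * ε ^ 2 = 4 * n := by
          field_simp
        linarith
      nlinarith
    linarith

end Pool.Agent.Helper42.MD
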