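import Mathlib
import Pool.Agent.Helper42.MD.Defs

set_option autoImplicit false

namespace Pool.Agent.Helper42.MD

open MeasureTheory

private theorem p1_lmarginal_pair {V α : Type} [DecidableEq V] [MeasurableSpace α]
    (μ : Measure α) [IsProbabilityMeasure μ] (f : (V → α) → ENNReal) (hf : Measurable f) {a b : V}
    (hab : a ≠ b) (X : V → α) :
    lmarginal (fun _ : V => μ) {a, b} f X =
      ∫⁻ x, ∫⁻ y, f (Function.update (Function.update X a x) b y) ∂μ ∂μ := by
  have h1 : a ∉ ({b} : Finset V) := by
    rw [Finset.mem_singleton]
    exact hab
  rw [lmarginal_insert f hf h1]
  simp only [lmarginal_singleton]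

private theorem p1_measurable {V α : Type} [DecidableEq V] [MeasurableSpace α]
    (a b : V) (X : V → α) :
    Measurable fun z : α × α => Function.update (Function.update X a z.1) b z.2 := by
  refine measurable_pi_lambda _ (fun v => ?_)
  by_cases hvb : v = b
  · subst hvb
    simp only [Function.update_self]
    exact measurable_snd
  · by_cases hva : v = a
    · subst hva
      simp only [Function.update_of_ne hvb, Function.update_self]
      exact measurable_fst
    · simp only [Function.update_of_ne hvb, Function.update_of_ne hva]
      exact measurable_const

/-- MD-P1. Induction on `K` (with `Fin.snoc` / `Fin.castSucc`, `Fin.last`): integrate out the two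
coordinates of the last pair; the events `A i`, `i` not last, do not depend on them. For instance with
`MeasureTheory.lmarginal` (notation `∫⋯∫⁻_s, f ∂μ`): `lintegral_eq_lmarginal_univ`,
`lmarginal_union`, `lmarginal_mono`, or directly with the measurable equivalences splitting off two
coordinates (`MeasurableEquiv.piEquivPiSubtypeProd`, `measurePreserving_piEquivPiSubtypeProd`). The
set in `hq` is measurable because `A i` is. -/
theorem tuple_bound {V α : Type} [Fintype V] [DecidableEq V] [MeasurableSpace α] (μ : Measure α)
    [IsProbabilityMeasure μ] (K : ℕ) (p : Fin K → V × V) (hp : Dj p)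
    (A : Fin K → Set (V → α)) (hA : ∀ i, MeasurableSet (A i)) (q : ENNReal)
    (hind : ∀ i j, i < j → ∀ (X : V → α) (x y : α),
      Function.update (Function.update X (p j).1 x) (p j).2 y ∈ A i ↔ X ∈ A i)
    (hq : ∀ i (X : V → α), (μ.prod μ)
      {z | Function.update (Function.update X (p i).1 z.1) (p i).2 z.2 ∈ A i} ≤ q) :
    (Measure.pi fun _ : V => μ) (⋂ i, A i) ≤ q ^ K := by
  induction K with
  | zero =>
    rw [pow_zero]
    exact prob_le_one
  | succ K ih =>
    set a : V := (p (Fin.last K)).1 with ha
    set b : V := (p (Fin.last K)).2 with hb
    have hab : a ≠ b := hp.1 (Fin.last K)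
    set B : Set (V → α) := ⋂ i : Fin K, A i.castSucc with hBdef
    have hBm : MeasurableSet B := MeasurableSet.iInter fun i => hA _
    have hLm : MeasurableSet (A (Fin.last K)) := hA _
    have hdj : Dj (fun i : Fin K => p i.castSucc) := by
      refine ⟨fun i => hp.1 _, fun i j hij => hp.2 _ _ ?_⟩
      intro h
      exact hij (Fin.castSucc_injective K h)
    have ihB : (Measure.pi fun _ : V => μ) B ≤ q ^ K := by
      refine ih (fun i => p i.castSucc) hdj (fun i => A i.castSucc) (fun i => hA _) ?_ ?_
      · intro i j hij X x y
        exact hind i.castSucc j.castSucc (Fin.castSucc_lt_castSucc_iff.mpr hij) X x y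
      · intro i X
        exact hq i.castSucc X
    have hinv : ∀ (X : V → α) (x y : α),
        Function.update (Function.update X a x) b y ∈ B ↔ X ∈ B := by
      intro X x y
      rw [hBdef, Set.mem_iInter, Set.mem_iInter]
      refine forall_congr' fun i => ?_
      exact hind i.castSucc (Fin.last K) (Fin.castSucc_lt_last i) X x y
    have hI : (⋂ i, A i) = B ∩ A (Fin.last K) := by
      ext X
      rw [Set.mem_inter_iff, hBdef, Set.mem_iInter, Set.mem_iInter]
      constructor
      · intro h
        exact ⟨fun i => h _, h _⟩
      · rintro ⟨h1, h2⟩ i
        refine Fin.lastCases ?_ ?_ i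
        · exact h2
        · exact h1
    have hfm : Measurable ((B ∩ A (Fin.last K)).indicator (1 : (V → α) → ENNReal)) :=
      measurable_one.indicator (hBm.inter hLm)
    have hgm : Measurable (B.indicator (fun _ : V → α => q)) :=
      measurable_const.indicator hBm
    rw [hI, ← lintegral_indicator_one (hBm.inter hLm)]
    calc ∫⁻ X, (B ∩ A (Fin.last K)).indicator 1 X ∂(Measure.pi fun _ : V => μ)
        ≤ ∫⁻ X, B.indicator (fun _ => q) X ∂(Measure.pi fun _ : V => μ) := by
          refine lintegral_le_of_lmarginal_le ({a, b} : Finset V) hfm hgm ?_
          intro X
          rw [p1_lmarginal_pair μ _ hfm hab X, p1_lmarginal_pair μ _ hgm hab X]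
          by_cases hX : X ∈ B
          · have h1 : ∀ x y, (B ∩ A (Fin.last K)).indicator (1 : (V → α) → ENNReal)
                (Function.update (Function.update X a x) b y) =
                (Prod.mk x ⁻¹' {z : α × α |
                  Function.update (Function.update X a z.1) b z.2 ∈ A (Fin.last K)}).indicator
                  1 y := by
              intro x y
              have h2 := (hinv X x y).mpr hX
              by_cases h3 : Function.update (Function.update X a x) b y ∈ A (Fin.last K)
              · rw [Set.indicator_of_mem (show _ ∈ B ∩ A (Fin.last K) from ⟨h2, h3⟩),
                  Set.indicator_of_mem (show y ∈ Prod.mk x ⁻¹' {z : α × α |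
                    Function.update (Function.update X a z.1) b z.2 ∈ A (Fin.last K)} from h3)]
                rfl
              · rw [Set.indicator_of_notMem (show _ ∉ B ∩ A (Fin.last K) from fun h => h3 h.2),
                  Set.indicator_of_notMem (show y ∉ Prod.mk x ⁻¹' {z : α × α |
                    Function.update (Function.update X a z.1) b z.2 ∈ A (Fin.last K)} from h3)]
            have hSm : MeasurableSet {z : α × α |
                Function.update (Function.update X a z.1) b z.2 ∈ A (Fin.last K)} :=
              p1_measurable a b X hLm
            have h4 : ∫⁻ x, ∫⁻ y, (B ∩ A (Fin.last K)).indicator (1 : (V → α) → ENNReal)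
                (Function.update (Function.update X a x) b y) ∂μ ∂μ =
                (μ.prod μ) {z : α × α |
                  Function.update (Function.update X a z.1) b z.2 ∈ A (Fin.last K)} := by
              rw [Measure.prod_apply hSm]
              refine lintegral_congr fun x => ?_
              rw [← lintegral_indicator_one (measurable_prodMk_left hSm)]
              exact lintegral_congr fun y => h1 x y
            have h5 : ∀ x y, B.indicator (fun _ : V → α => q)
                (Function.update (Function.update X a x) b y) = q := by
              intro x y
              rw [Set.indicator_of_mem ((hinv X x y).mpr hX)]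
            rw [h4]
            simp only [h5, lintegral_const, measure_univ, mul_one]
            exact hq (Fin.last K) X
          · have h1 : ∀ x y, (B ∩ A (Fin.last K)).indicator (1 : (V → α) → ENNReal)
                (Function.update (Function.update X a x) b y) = 0 := by
              intro x y
              rw [Set.indicator_of_notMem]
              intro h
              exact hX ((hinv X x y).mp h.1)
            simp only [h1, lintegral_zero]
            exact zero_le
      _ = q * (Measure.pi fun _ : V => μ) B := by
          rw [lintegral_indicator_const hBm]
      _ ≤ q * q ^ K := by gcongr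
      _ = q ^ (K + 1) := by rw [pow_succ, mul_comm]

end Pool.Agent.Helper42.MD
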