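import Mathlib
import Pool.Agent.Helper42.MD.Defs

set_option autoImplicit false

namespace Pool.Agent.Helper42.MD

open MeasureTheory

private theorem p2_meas_dist {V : Type} (a b : V) : Measurable (fun X : V → Pl => dist (X a) (X b)) :=
  (measurable_pi_apply a).dist (measurable_pi_apply b)

private theorem p2_meas_graph {V : Type} [Finite V] (r : ℝ) (R : Set V) (H : SimpleGraph V) :
    MeasurableSet {X : V → Pl | res (geo r X) R = H} := by
  have : {X : V → Pl | res (geo r X) R = H} =
      ⋂ i : V, ⋂ j : V, {X : V → Pl | (res (geo r X) R).Adj i j ↔ H.Adj i j} := by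
    ext X
    simp only [Set.mem_ofPred_eq, Set.mem_iInter]
    constructor
    · rintro rfl i j
      exact Iff.rfl
    · intro h
      ext i j
      exact h i j
  rw [this]
  refine MeasurableSet.iInter fun i => MeasurableSet.iInter fun j => ?_
  have hm : MeasurableSet {X : V → Pl | (res (geo r X) R).Adj i j} := by
    by_cases hij : i ≠ j ∧ i ∈ R ∧ j ∈ R
    · have e : {X : V → Pl | (res (geo r X) R).Adj i j} = {X : V → Pl | dist (X i) (X j) ≤ r} := by
        ext X
        exact ⟨fun h => h.1.2, fun h => ⟨⟨hij.1, h⟩, hij.2.1, hij.2.2⟩⟩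
      rw [e]
      exact measurableSet_le (p2_meas_dist i j) measurable_const
    · have e : {X : V → Pl | (res (geo r X) R).Adj i j} = ∅ := by
        ext X
        refine ⟨fun h => ?_, fun h => h.elim⟩
        exact (hij ⟨h.1.1, h.2.1, h.2.2⟩).elim
      rw [e]
      exact MeasurableSet.empty
  by_cases hH : H.Adj i j
  · simpa only [hH, iff_true] using hm
  · have e : {X : V → Pl | (res (geo r X) R).Adj i j ↔ H.Adj i j} =
        {X : V → Pl | (res (geo r X) R).Adj i j}ᶜ := by
      ext X
      simp only [Set.mem_ofPred_eq, Set.mem_compl_iff, hH, iff_false]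
    rw [e]
    exact hm.compl

/-- MD-P2. Measurability: `{X | geo r X = H}` is measurable for every graph `H` (finitely many
conditions on distances), and for fixed `H` the set of `X` with `dist (X a) (X b) ≤ ε` and
`Straddle X (fun w => (res H R).edist s w) r (X a) (X b)` is a countable union (over `k`) of finite
Boolean combinations of distance conditions. There are finitely many graphs on a finite type. -/
theorem measurableSet_Ev {V : Type} [Finite V] (r ε : ℝ) (s : V) (R : Set V) (a b : V) :
    MeasurableSet (Ev r ε s R a b) := by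
  have : Ev r ε s R a b = ⋃ H : SimpleGraph V, {X : V → Pl | res (geo r X) R = H} ∩
      ({X : V → Pl | dist (X a) (X b) ≤ ε} ∩ ⋃ k : ℕ,
        ((⋃ w : V, ⋃ _ : H.edist s w ≤ k, {X : V → Pl | dist (X a) (X w) ≤ r}) ∩
          ⋂ w : V, ⋂ _ : H.edist s w ≤ k, {X : V → Pl | r < dist (X b) (X w)})) := by
    ext X
    simp only [Ev, Straddle, Set.mem_ofPred_eq, Set.mem_iUnion, Set.mem_inter_iff, Set.mem_iInter,
      exists_prop]
    constructor
    · intro h
      exact ⟨_, rfl, h⟩
    · rintro ⟨H, rfl, h⟩
      exact h
  rw [this]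
  refine MeasurableSet.iUnion fun H => (p2_meas_graph r R H).inter
    ((measurableSet_le (p2_meas_dist a b) measurable_const).inter
      (MeasurableSet.iUnion fun k => MeasurableSet.inter ?_ ?_))
  · exact MeasurableSet.iUnion fun w => MeasurableSet.iUnion fun _ =>
      measurableSet_le (p2_meas_dist a w) measurable_const
  · exact MeasurableSet.iInter fun w => MeasurableSet.iInter fun _ =>
      measurableSet_lt measurable_const (p2_meas_dist b w)

/-- the graph `res (geo r X) R` only depends on the points with labels in `R` -/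
theorem res_geo_update {V : Type} [DecidableEq V] (r : ℝ) (X : V → Pl) (R : Set V) (c : V)
    (hc : c ∉ R) (x : Pl) : res (geo r (Function.update X c x)) R = res (geo r X) R := by
  ext i j
  constructor
  · rintro ⟨⟨h1, h2⟩, h3, h4⟩
    have hi : i ≠ c := fun h => hc (h ▸ h3)
    have hj : j ≠ c := fun h => hc (h ▸ h4)
    rw [Function.update_of_ne hi, Function.update_of_ne hj] at h2
    exact ⟨⟨h1, h2⟩, h3, h4⟩
  · rintro ⟨⟨h1, h2⟩, h3, h4⟩
    have hi : i ≠ c := fun h => hc (h ▸ h3)
    have hj : j ≠ c := fun h => hc (h ▸ h4)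
    refine ⟨⟨h1, ?_⟩, h3, h4⟩
    rw [Function.update_of_ne hi, Function.update_of_ne hj]
    exact h2

/-- a vertex outside `R` has level `⊤` -/
theorem res_edist_top {V : Type} (G : SimpleGraph V) (R : Set V) (s w : V) (hs : s ∈ R)
    (hw : w ∉ R) : (res G R).edist s w = ⊤ := by
  by_contra h
  have hr : (res G R).Reachable s w := SimpleGraph.reachable_of_edist_ne_top h
  obtain ⟨p⟩ := hr.symm
  cases p with
  | nil => exact hw hs
  | cons h _ => exact hw h.2.1

theorem Ev_update {V : Type} [DecidableEq V] (r ε : ℝ) (s : V) (R : Set V) (a b c : V)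
    (hs : s ∈ R) (hc : c ∉ R) (hca : c ≠ a) (hcb : c ≠ b) (X : V → Pl) (x : Pl) :
    Function.update X c x ∈ Ev r ε s R a b ↔ X ∈ Ev r ε s R a b := by
  have key : ∀ (k : ℕ) (w : V), (res (geo r X) R).edist s w ≤ k →
      Function.update X c x w = X w := by
    intro k w hk
    apply Function.update_of_ne
    rintro rfl
    rw [res_edist_top (geo r X) R s w hs hc] at hk
    exact absurd hk (by simp)
  simp only [Ev, Straddle, Set.mem_ofPred_eq, res_geo_update r X R c hc x,
    Function.update_of_ne hca.symm, Function.update_of_ne hcb.symm]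
  refine and_congr_right fun _ => exists_congr fun k => and_congr ?_ ?_
  · refine exists_congr fun w => and_congr_right fun hk => ?_
    rw [key k w hk]
  · refine forall_congr' fun w => forall_congr' fun hk => ?_
    rw [key k w hk]

/-- levels are a `LevelFun` for the points with finite level -/
theorem levelFun_res {V : Type} (r : ℝ) (X : V → Pl) (R : Set V) (s : V) (hs : s ∈ R) :
    LevelFun X r (fun w => (res (geo r X) R).edist s w) := by
  intro i j hi hj hd
  simp only at hi hj ⊢
  by_cases hij : i = j
  · rw [hij]
    exact le_self_add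
  · have hiR : i ∈ R := by
      by_contra h
      exact hi (res_edist_top _ R s i hs h)
    have hjR : j ∈ R := by
      by_contra h
      exact hj (res_edist_top _ R s j hs h)
    have hadj : (res (geo r X) R).Adj i j := ⟨⟨hij, hd⟩, hiR, hjR⟩
    calc (res (geo r X) R).edist s j
        ≤ (res (geo r X) R).edist s i + (res (geo r X) R).edist i j :=
          SimpleGraph.edist_triangle
      _ = (res (geo r X) R).edist s i + 1 := by
          rw [SimpleGraph.edist_eq_one_iff_adj.2 hadj]

end Pool.Agent.Helper42.MD
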