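import Mathlib
import Pool.Agent.Helper42.MD.Defs

set_option autoImplicit false

namespace Pool.Agent.Helper42.MD

open MeasureTheory

/-- the Voronoi cell -/
private def G1vor (W : Finset Pl) (w : Pl) : Set Pl := {x | ∀ w' ∈ W, dist x w ≤ dist x w'}

private theorem G1vor_meas (W : Finset Pl) (w : Pl) : MeasurableSet (G1vor W w) := by
  have h : G1vor W w = ⋂ w' ∈ W, {x : Pl | dist x w ≤ dist x w'} := by
    ext x
    simp [G1vor]
  rw [h]
  refine Finset.measurableSet_biInter W fun w' _ => ?_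
  exact (isClosed_le (by fun_prop) (by fun_prop)).measurableSet

private theorem G1near (w w' x : Pl) (t : ℝ) (ht0 : 0 < t) (ht1 : t < 1) (hne : w' ≠ w)
    (h : dist x w ≤ dist x w') :
    dist (AffineMap.homothety w t x) w < dist (AffineMap.homothety w t x) w' := by
  have e1 : AffineMap.homothety w t x - w = t • (x - w) := by
    rw [AffineMap.homothety_apply]
    simp
  have e2 : AffineMap.homothety w t x - w' = t • (x - w) - (w' - w) := by
    rw [← e1]
    abel
  have e3 : x - w' = (x - w) - (w' - w) := by abel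
  rw [dist_eq_norm, dist_eq_norm] at h ⊢
  rw [e1, e2]
  rw [e3] at h
  set a := x - w
  set b := w' - w with hb
  have hb0 : 0 < ‖b‖ := norm_pos_iff.2 (sub_ne_zero.2 hne)
  have h2 : ‖a‖ ^ 2 ≤ ‖a - b‖ ^ 2 := pow_le_pow_left₀ (norm_nonneg _) h 2
  rw [norm_sub_sq_real a b] at h2
  have h3 : ‖t • a‖ ^ 2 < ‖t • a - b‖ ^ 2 := by
    rw [norm_sub_sq_real (t • a) b, real_inner_smul_left]
    nlinarith [mul_pos hb0 hb0]
  exact lt_of_pow_lt_pow_left₀ 2 (norm_nonneg _) h3

private theorem G1image_meas (w : Pl) (t : ℝ) (ht : t ≠ 0) (S : Set Pl) (hS : MeasurableSet S) :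
    MeasurableSet (AffineMap.homothety w t '' S) := by
  have h : AffineMap.homothety w t '' S = (fun y => w + t⁻¹ • (y - w)) ⁻¹' S := by
    ext y
    constructor
    · rintro ⟨x, hx, rfl⟩
      have : w + t⁻¹ • (AffineMap.homothety w t x - w) = x := by
        rw [AffineMap.homothety_apply]
        simp [smul_smul, inv_mul_cancel₀ ht]
      rw [Set.mem_preimage, this]
      exact hx
    · intro hy
      refine ⟨_, hy, ?_⟩
      rw [AffineMap.homothety_apply]
      simp [smul_smul, mul_inv_cancel₀ ht]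
  rw [h]
  have hc : Continuous (fun y : Pl => w + t⁻¹ • (y - w)) := by fun_prop
  exact hc.measurable hS

private theorem G1dist_w (w x : Pl) (t : ℝ) (ht : 0 ≤ t) :
    dist (AffineMap.homothety w t x) w = t * dist x w := by
  rw [AffineMap.homothety_apply, dist_eq_norm, dist_eq_norm]
  simp [norm_smul, abs_of_nonneg ht]

private theorem G1dist_x (w x : Pl) (t : ℝ) (ht : t ≤ 1) :
    dist (AffineMap.homothety w t x) x = (1 - t) * dist x w := by
  rw [AffineMap.homothety_apply, dist_eq_norm, dist_eq_norm]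
  have h : (t • (x -ᵥ w) +ᵥ w) - x = (t - 1) • (x - w) := by
    simp only [vsub_eq_sub, vadd_eq_add, sub_smul, one_smul]
    abel
  rw [h, norm_smul, Real.norm_eq_abs, abs_sub_comm, abs_of_nonneg (by linarith)]

/-- MD-G1, the shell lemma. Put `lam = r / (r + ε)` and `J = ⌊r / (2 * ε)⌋`, so `J ≥ 1`,
`J ≥ r / (4 * ε)` and `lam ^ J ≥ 1 / 2` (as `(1 + ε / r) ^ J ≤ exp (1 / 2) < 2`). For `w ∈ W` let
`Vor w` be the set of `x` with `dist x w ≤ dist x w'` for all `w' ∈ W`. For `1 ≤ j ≤ J` let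
`h w j` be the homothety with centre `w` and ratio `lam ^ j`. For `x ∈ B ∩ Vor w` the point
`y = h w j x` satisfies: `r < dist x w ≤ r + ε`; `dist y w = lam ^ j * dist x w` is in
`(lam ^ j * r, lam ^ j * (r + ε)]` (disjoint intervals for different `j`, since
`lam ^ (j + 1) * (r + ε) = lam ^ j * r`); `w` is the unique nearest point of `W` to `y` (strict
convexity: `dist y w' > dist y w` for `w' ≠ w` in `W`); `dist y x ≤ (1 - lam ^ j) * (r + ε) ≤ 2 * r`.
So the images `h w j '' (B ∩ Vor w)` are pairwise disjoint (over all `(w, j)`), contained in the set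
on the right, and have volume `lam ^ (2 * j) * volume (B ∩ Vor w) ≥ volume (B ∩ Vor w) / 4`
(`Measure.addHaar_image_homothety`). Sum: `J / 4 * volume B ≤ volume (right set)`. -/
theorem shell (W : Finset Pl) (r ε : ℝ) (hε : 0 < ε) (hr : 2 * ε ≤ r) (B : Set Pl)
    (hB : MeasurableSet B) (h1 : ∀ x ∈ B, ∀ w ∈ W, r < dist x w)
    (h2 : ∀ x ∈ B, ∃ w ∈ W, dist x w ≤ r + ε) :
    volume B ≤ ENNReal.ofReal (16 * (ε / r)) * volume {y : Pl | ∃ x ∈ B, dist y x ≤ 2 * r} := by
  classical
  have hr0 : 0 < r := by linarith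
  set lam : ℝ := r / (r + ε) with hlam
  have hre : 0 < r + ε := by linarith
  have hl0 : 0 < lam := div_pos hr0 hre
  have hl1 : lam < 1 := by rw [hlam, div_lt_one hre]; linarith
  have hlr : lam * (r + ε) = r := by rw [hlam]; field_simp
  set J : ℕ := ⌊r / (2 * ε)⌋₊ with hJ
  have ht1 : 1 ≤ r / (2 * ε) := by rw [le_div_iff₀ (by linarith)]; linarith
  have hJ1 : 1 ≤ J := Nat.le_floor (by exact_mod_cast ht1)
  have hJle : (J : ℝ) ≤ r / (2 * ε) := Nat.floor_le (by positivity)
  have hJlt : r / (2 * ε) < J + 1 := Nat.lt_floor_add_one _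
  have hJ2 : r / (4 * ε) ≤ J := by
    have e : r / (4 * ε) = r / (2 * ε) / 2 := by field_simp; ring
    have : (1 : ℝ) ≤ J := by exact_mod_cast hJ1
    rw [e]
    linarith
  have hlamJ : ∀ j ≤ J, (1 : ℝ) / 2 ≤ lam ^ j := by
    intro j hj
    have h3 : lam = 1 + -(ε / (r + ε)) := by rw [hlam]; field_simp; ring
    have h4 : ε / (r + ε) ≤ 1 := by rw [div_le_one hre]; linarith
    have h5 := one_add_mul_le_pow (a := -(ε / (r + ε))) (by linarith) j
    rw [← h3] at h5
    have h6 : (j : ℝ) * (ε / (r + ε)) ≤ 1 / 2 := by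
      have h7 : (j : ℝ) ≤ r / (2 * ε) := le_trans (by exact_mod_cast hj) hJle
      have h8 : ε / (r + ε) ≤ ε / r := div_le_div_of_nonneg_left hε.le hr0 (by linarith)
      calc (j : ℝ) * (ε / (r + ε)) ≤ r / (2 * ε) * (ε / r) :=
            mul_le_mul h7 h8 (by positivity) (by positivity)
        _ = 1 / 2 := by field_simp
    linarith [mul_neg (j : ℝ) (ε / (r + ε))]
  -- the pieces
  set R : Set Pl := {y : Pl | ∃ x ∈ B, dist y x ≤ 2 * r} with hR
  let f : Pl × ℕ → Set Pl := fun p => AffineMap.homothety p.1 (lam ^ p.2) '' (B ∩ G1vor W p.1)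
  have hle : ∀ w ∈ W, ∀ x ∈ B ∩ G1vor W w, r < dist x w ∧ dist x w ≤ r + ε := by
    intro w hw x hx
    refine ⟨h1 x hx.1 w hw, ?_⟩
    obtain ⟨w', hw', h'⟩ := h2 x hx.1
    exact le_trans (hx.2 w' hw') h'
  have hlt1 : ∀ j, 1 ≤ j → lam ^ j < 1 := fun j hj => pow_lt_one₀ hl0.le hl1 (by omega)
  have hsub : ∀ p ∈ W ×ˢ Finset.Icc 1 J, f p ⊆ R := by
    rintro ⟨w, j⟩ hp y ⟨x, hx, rfl⟩
    rw [Finset.mem_product, Finset.mem_Icc] at hp
    refine ⟨x, hx.1, ?_⟩
    rw [G1dist_x w x _ (hlt1 j hp.2.1).le]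
    have h3 := hle w hp.1 x hx
    have h4 : 0 < lam ^ j := pow_pos hl0 j
    have h5 := hlt1 j hp.2.1
    nlinarith [dist_nonneg (x := x) (y := w)]
  have hdisj : ((W ×ˢ Finset.Icc 1 J : Finset (Pl × ℕ)) : Set (Pl × ℕ)).PairwiseDisjoint f := by
    rintro ⟨w, j⟩ hp ⟨w', j'⟩ hp' hne
    rw [Finset.mem_coe, Finset.mem_product, Finset.mem_Icc] at hp hp'
    simp only at hp hp'
    rw [Function.onFun, Set.disjoint_left]
    rintro y ⟨x, hx, rfl⟩ ⟨x', hx', hxx'⟩
    by_cases hw : w' = w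
    · subst hw
      have hjj : j ≠ j' := fun e => hne (by rw [e])
      have d1 := G1dist_w w' x (lam ^ j) (pow_nonneg hl0.le _)
      have d2 := G1dist_w w' x' (lam ^ j') (pow_nonneg hl0.le _)
      simp only at hxx'
      rw [hxx', d1] at d2
      have a1 := hle w' hp.1 x hx
      have a2 := hle w' hp.1 x' hx'
      have p1 : 0 < lam ^ j := pow_pos hl0 j
      have p2 : 0 < lam ^ j' := pow_pos hl0 j'
      rcases Nat.lt_or_ge j j' with h3 | h3
      · have h4 : lam ^ j' ≤ lam ^ (j + 1) := pow_le_pow_of_le_one hl0.le hl1.le h3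
        have h5 : lam ^ j' * (r + ε) ≤ lam ^ j * r := by
          calc lam ^ j' * (r + ε) ≤ lam ^ (j + 1) * (r + ε) :=
                mul_le_mul_of_nonneg_right h4 hre.le
            _ = lam ^ j * r := by rw [pow_succ, mul_assoc, hlr]
        have h6 : lam ^ j * r < lam ^ j * dist x w' := mul_lt_mul_of_pos_left a1.1 p1
        have h7 : lam ^ j' * dist x' w' ≤ lam ^ j' * (r + ε) :=
          mul_le_mul_of_nonneg_left a2.2 p2.le
        linarith
      · have h3' : j' < j := by omega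
        have h4 : lam ^ j ≤ lam ^ (j' + 1) := pow_le_pow_of_le_one hl0.le hl1.le h3'
        have h5 : lam ^ j * (r + ε) ≤ lam ^ j' * r := by
          calc lam ^ j * (r + ε) ≤ lam ^ (j' + 1) * (r + ε) :=
                mul_le_mul_of_nonneg_right h4 hre.le
            _ = lam ^ j' * r := by rw [pow_succ, mul_assoc, hlr]
        have h6 : lam ^ j' * r < lam ^ j' * dist x' w' := mul_lt_mul_of_pos_left a2.1 p2
        have h7 : lam ^ j * dist x w' ≤ lam ^ j * (r + ε) :=
          mul_le_mul_of_nonneg_left a1.2 p1.le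
        linarith
    · have b1 := G1near w w' x (lam ^ j) (pow_pos hl0 j) (hlt1 j hp.2.1) hw (hx.2 w' hp'.1)
      have b2 := G1near w' w x' (lam ^ j') (pow_pos hl0 j') (hlt1 j' hp'.2.1) (Ne.symm hw)
        (hx'.2 w hp.1)
      simp only at hxx'
      rw [hxx'] at b2
      linarith
  have hmeas : ∀ p ∈ W ×ˢ Finset.Icc 1 J, MeasurableSet (f p) := by
    rintro ⟨w, j⟩ _
    exact G1image_meas w _ (pow_pos hl0 j).ne' _ (hB.inter (G1vor_meas W w))
  have hsum : ∑ p ∈ W ×ˢ Finset.Icc 1 J, volume (f p) ≤ volume R := by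
    rw [← measure_biUnion_finset hdisj hmeas]
    exact measure_mono (Set.iUnion₂_subset hsub)
  have hBle : volume B ≤ ∑ w ∈ W, volume (B ∩ G1vor W w) := by
    refine le_trans (measure_mono ?_) (measure_biUnion_finset_le W _)
    intro x hx
    obtain ⟨w0, hw0, -⟩ := h2 x hx
    obtain ⟨w, hw, hmin⟩ := Finset.exists_min_image W (fun w => dist x w) ⟨w0, hw0⟩
    simp only [Set.mem_iUnion]
    exact ⟨w, hw, hx, hmin⟩
  have hterm : ∀ p ∈ W ×ˢ Finset.Icc 1 J,
      ENNReal.ofReal (1 / 4) * volume (B ∩ G1vor W p.1) ≤ volume (f p) := by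
    rintro ⟨w, j⟩ hp
    rw [Finset.mem_product, Finset.mem_Icc] at hp
    have e1 : volume (f (w, j)) = ENNReal.ofReal |(lam ^ j) ^ Module.finrank ℝ Pl| *
        volume (B ∩ G1vor W w) := Measure.addHaar_image_homothety volume w (lam ^ j) _
    have e2 : Module.finrank ℝ Pl = 2 := by simp [Pl]
    rw [e1, e2]
    refine mul_le_mul_left (ENNReal.ofReal_le_ofReal ?_) _
    rw [abs_of_nonneg (by positivity)]
    have := hlamJ j hp.2.2
    nlinarith
  have hmain : ENNReal.ofReal (J / 4) * volume B ≤ volume R := by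
    refine le_trans ?_ hsum
    refine le_trans ?_ (Finset.sum_le_sum hterm)
    rw [Finset.sum_product_right]
    simp only
    rw [Finset.sum_const, Nat.card_Icc, ← Finset.mul_sum, nsmul_eq_mul, ← mul_assoc]
    have e3 : ((J + 1 - 1 : ℕ) : ENNReal) * ENNReal.ofReal (1 / 4) = ENNReal.ofReal (J / 4) := by
      rw [Nat.add_sub_cancel, ← ENNReal.ofReal_natCast, ← ENNReal.ofReal_mul (by positivity)]
      congr 1
      ring
    rw [e3]
    exact mul_le_mul_right hBle _
  calc volume B = 1 * volume B := (one_mul _).symm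
    _ ≤ ENNReal.ofReal (16 * (ε / r)) * ENNReal.ofReal (J / 4) * volume B := by
        refine mul_le_mul_left ?_ _
        rw [← ENNReal.ofReal_mul (by positivity), ENNReal.one_le_ofReal]
        rw [div_le_iff₀ (by positivity)] at hJ2
        rw [show 16 * (ε / r) * ((J : ℝ) / 4) = (J * (4 * ε)) / r by ring, le_div_iff₀ hr0]
        linarith
    _ = ENNReal.ofReal (16 * (ε / r)) * (ENNReal.ofReal (J / 4) * volume B) := mul_assoc _ _ _
    _ ≤ ENNReal.ofReal (16 * (ε / r)) * volume R := mul_le_mul_right hmain _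

end Pool.Agent.Helper42.MD
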