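import Mathlib
import Pool.Agent.Helper42.MD.Defs

set_option autoImplicit false

namespace Pool.Agent.Helper42.MD

open MeasureTheory

private lemma G2_abs_le (y x : Pl) (i : Fin 2) (R : ℝ) (h : dist y x ≤ R) :
    |x i - y i| ≤ R := by
  have h1 : |(y - x) i| ≤ ‖y - x‖ := by
    have := PiLp.norm_apply_le (y - x) i
    simpa [Real.norm_eq_abs] using this
  have h2 : (y - x) i = y i - x i := rfl
  rw [h2, ← dist_eq_norm, abs_sub_comm] at h1
  exact h1.trans h

private lemma G2_cell_mem (a b r : ℝ) (hr : 0 < r) (h : |a - b| ≤ 4 * r) :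
    ⌊(a - b + 4 * r) / (r / 2)⌋ ∈ Finset.Icc (0 : ℤ) 16 := by
  rw [abs_le] at h
  rw [Finset.mem_Icc]
  constructor
  · apply Int.floor_nonneg.2
    apply div_nonneg <;> linarith [h.1]
  · have : (a - b + 4 * r) / (r / 2) < 17 := by
      rw [div_lt_iff₀ (by positivity)]
      linarith [h.2]
    have h2 := Int.floor_lt.2 (show (a - b + 4 * r) / (r / 2) < ((17 : ℤ) : ℝ) by exact_mod_cast this)
    omega

private lemma G2_coord (a b c r : ℝ) (hr : 0 < r)
    (h : ⌊(a - c + 4 * r) / (r / 2)⌋ = ⌊(b - c + 4 * r) / (r / 2)⌋) : |a - b| < r / 2 := by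
  have h1 := Int.abs_sub_lt_one_of_floor_eq_floor h
  rw [← sub_div, abs_div, abs_of_pos (show (0 : ℝ) < r / 2 by positivity),
    div_lt_one (by positivity)] at h1
  have h2 : a - c + 4 * r - (b - c + 4 * r) = a - b := by ring
  rwa [h2] at h1

private lemma G2_dist (x z : Pl) (r : ℝ) (hr : 0 < r) (h0 : |x 0 - z 0| < r / 2)
    (h1 : |x 1 - z 1| < r / 2) : dist x z ≤ r := by
  rw [EuclideanSpace.dist_eq, Fin.sum_univ_two, Real.dist_eq, Real.dist_eq]
  apply Real.sqrt_le_iff.2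
  refine ⟨hr.le, ?_⟩
  have a0 := abs_nonneg (x 0 - z 0)
  have a1 := abs_nonneg (x 1 - z 1)
  nlinarith

/-- MD-G2. The square with centre `y` and side `8 * r` is covered by `17 * 17` half open cells of side
`r / 2` (cell of `x`: `(⌊(x i - y i + 4 * r) / (r / 2)⌋)`, `i = 0, 1`, values `0, …, 16`). Two points
of one cell have distance at most `r`, so the finite levels of the points in one cell are pairwise at
distance at most one: at most two levels per cell. -/
theorem level_count {V : Type} [Finite V] (X : V → Pl) (ℓ : V → ℕ∞) (r : ℝ) (hr : 0 < r)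
    (h : LevelFun X r ℓ) (y : Pl) :
    {k : ℕ | ∃ w, ℓ w = k ∧ dist y (X w) ≤ 4 * r}.ncard ≤ 578 := by
  classical
  set S : Set ℕ := {k : ℕ | ∃ w, ℓ w = k ∧ dist y (X w) ≤ 4 * r} with hS
  by_cases hne : S = ∅
  · rw [hne]; simp
  obtain ⟨k₀, w₀, -⟩ := Set.nonempty_iff_ne_empty.2 hne
  have hw : ∃ g : ℕ → V, ∀ k ∈ S, ℓ (g k) = k ∧ dist y (X (g k)) ≤ 4 * r := by
    refine ⟨fun k => if hk : k ∈ S then hk.choose else w₀, ?_⟩
    intro k hk
    simp only [hk, dif_pos]
    exact hk.choose_spec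
  obtain ⟨g, hg⟩ := hw
  let T : Finset (ℤ × ℤ × ℕ) := Finset.Icc (0 : ℤ) 16 ×ˢ (Finset.Icc (0 : ℤ) 16 ×ˢ Finset.range 2)
  let f : ℕ → ℤ × ℤ × ℕ := fun k => (⌊(X (g k) 0 - y 0 + 4 * r) / (r / 2)⌋,
    ⌊(X (g k) 1 - y 1 + 4 * r) / (r / 2)⌋, k % 2)
  have hT : (T : Set (ℤ × ℤ × ℕ)).ncard = 578 := by
    rw [Set.ncard_coe_finset, Finset.card_product, Finset.card_product]
    simp
  rw [← hT]
  apply Set.ncard_le_ncard_of_injOn f _ _ T.finite_toSet
  · intro k hk
    have h1 := hg k hk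
    simp only [T, f, Finset.coe_product, Set.mem_prod, Finset.mem_coe]
    refine ⟨G2_cell_mem _ _ r hr (G2_abs_le _ _ 0 _ h1.2),
      G2_cell_mem _ _ r hr (G2_abs_le _ _ 1 _ h1.2), ?_⟩
    rw [Finset.mem_range]
    exact Nat.mod_lt _ (by norm_num)
  · intro k hk k' hk' hkk
    simp only [f, Prod.mk.injEq] at hkk
    obtain ⟨e0, e1, e2⟩ := hkk
    have hd := G2_dist (X (g k)) (X (g k')) r hr (G2_coord _ _ _ r hr e0) (G2_coord _ _ _ r hr e1)
    have h1 := h (g k) (g k') (by rw [(hg k hk).1]; exact ENat.natCast_ne_top _)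
      (by rw [(hg k' hk').1]; exact ENat.natCast_ne_top _) hd
    have h2 := h (g k') (g k) (by rw [(hg k' hk').1]; exact ENat.natCast_ne_top _)
      (by rw [(hg k hk).1]; exact ENat.natCast_ne_top _) (by rw [dist_comm]; exact hd)
    rw [(hg k hk).1, (hg k' hk').1] at h1 h2
    have h3 : k' ≤ k + 1 := by exact_mod_cast h1
    have h4 : k ≤ k' + 1 := by exact_mod_cast h2
    omega

end Pool.Agent.Helper42.MD
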