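import Mathlib
import Pool.Agent.Helper42.MD.Defs
import Pool.Agent.Helper42.MD.St.V1
import Pool.Agent.Helper42.MD.St.G1
import Pool.Agent.Helper42.MD.St.G2

set_option autoImplicit false

namespace Pool.Agent.Helper42.MD

open MeasureTheory

private def G3B {V : Type} (X : V → Pl) (ℓ : V → ℕ∞) (r ε L : ℝ) (k : ℕ) : Set Pl :=
  Sq L ∩ ((⋃ w ∈ {w | ℓ w ≤ (k : ℕ∞)}, {y : Pl | dist y (X w) ≤ r + ε}) ∩
    ((⋂ w ∈ {w | ℓ w ≤ (k : ℕ∞)}, {y : Pl | r < dist y (X w)}) ∩
      ⋃ w ∈ {w | ℓ w = (k : ℕ∞)}, {y : Pl | dist y (X w) ≤ 2 * r}))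

private theorem G3B_meas {V : Type} [Finite V] (X : V → Pl) (ℓ : V → ℕ∞) (r ε L : ℝ) (k : ℕ) :
    MeasurableSet (G3B X ℓ r ε L k) := by
  have hle : ∀ (a : Pl) (t : ℝ), MeasurableSet {y : Pl | dist y a ≤ t} := fun a t =>
    (isClosed_le (by fun_prop) (by fun_prop)).measurableSet
  have hlt : ∀ (a : Pl) (t : ℝ), MeasurableSet {y : Pl | t < dist y a} := fun a t =>
    (isOpen_lt (by fun_prop) (by fun_prop)).measurableSet
  unfold G3B
  refine (measurableSet_Sq L).inter (MeasurableSet.inter ?_ (MeasurableSet.inter ?_ ?_))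
  · exact MeasurableSet.biUnion (Set.to_countable _) fun w _ => hle _ _
  · exact MeasurableSet.biInter (Set.to_countable _) fun w _ => hlt _ _
  · exact MeasurableSet.biUnion (Set.to_countable _) fun w _ => hle _ _

private theorem G3mem {V : Type} (X : V → Pl) (ℓ : V → ℕ∞) (r ε L : ℝ) (k : ℕ) (y : Pl) :
    y ∈ G3B X ℓ r ε L k ↔ y ∈ Sq L ∧ (∃ w, ℓ w ≤ (k : ℕ∞) ∧ dist y (X w) ≤ r + ε) ∧
      (∀ w, ℓ w ≤ (k : ℕ∞) → r < dist y (X w)) ∧ ∃ w, ℓ w = (k : ℕ∞) ∧ dist y (X w) ≤ 2 * r := by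
  unfold G3B
  simp only [Set.mem_inter_iff, Set.mem_iUnion, Set.mem_iInter, Set.mem_setOf_eq, exists_prop]

/-- MD-G3, the geometric lemma. For `k : ℕ` let `B k` be the set of `y ∈ Sq L` such that some `w` with
`ℓ w ≤ k` has `dist y (X w) ≤ r + ε`, all `w` with `ℓ w ≤ k` have `r < dist y (X w)`, and some `w`
with `ℓ w = k` has `dist y (X w) ≤ 2 * r`. The set on the left is the union of the `B k`: given `k`,
replace it by the largest level `≤ k` of a point at distance `≤ 2 * r` from `y` (there is one, as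
`r + ε ≤ 2 * r`). `shell` with `W` the set of the `X w`, `ℓ w ≤ k`, bounds `volume (B k)` by
`16 * ε / r` times the volume of the set `T k` of the `y'` at distance `≤ 2 * r` from a point of
`B k`; such a `y'` is at distance `≤ 2 * r` from `Sq L` and at distance `≤ 4 * r` from some `X w`
with `ℓ w = k`. Each `y'` is in at most 578 of the (measurable supersets of the) `T k`
(`level_count`), and `volume_thick L (2 * r)` with `L + 4 * r ≤ 2 * L` gives the total
`16 * ε / r * 578 * 4 * L ^ 2`. Only finitely many `k` occur (the values of `ℓ`). -/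
theorem geom {V : Type} [Finite V] (X : V → Pl) (ℓ : V → ℕ∞) (r ε L : ℝ) (hε : 0 < ε)
    (hr : 2 * ε ≤ r) (hL : 4 * r ≤ L) (h : LevelFun X r ℓ) :
    volume {y : Pl | y ∈ Sq L ∧ ∃ k : ℕ, (∃ w, ℓ w ≤ k ∧ dist y (X w) ≤ r + ε) ∧
      ∀ w, ℓ w ≤ k → r < dist y (X w)} ≤ ENNReal.ofReal (36992 * (ε / r) * L ^ 2) := by
  classical
  have hr0 : 0 < r := by linarith
  have hL0 : 0 ≤ L := by linarith
  haveI : Fintype V := Fintype.ofFinite V
  -- the levels
  set K : Finset ℕ := (Finset.univ.image fun w : V => (ℓ w).toNat) with hK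
  -- covering
  have hcover : {y : Pl | y ∈ Sq L ∧ ∃ k : ℕ, (∃ w, ℓ w ≤ k ∧ dist y (X w) ≤ r + ε) ∧
      ∀ w, ℓ w ≤ k → r < dist y (X w)} ⊆ ⋃ k ∈ K, G3B X ℓ r ε L k := by
    rintro y ⟨hy, k, ⟨w₀, hw₀, hd₀⟩, hall⟩
    set S : Finset V := Finset.univ.filter fun w => ℓ w ≤ (k : ℕ∞) ∧ dist y (X w) ≤ 2 * r with hS
    have hw₀S : w₀ ∈ S := by
      rw [hS, Finset.mem_filter]
      exact ⟨Finset.mem_univ _, hw₀, by linarith⟩
    obtain ⟨w₁, hw₁, hmax⟩ := Finset.exists_max_image S ℓ ⟨w₀, hw₀S⟩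
    rw [hS, Finset.mem_filter] at hw₁
    have hne : ℓ w₁ ≠ ⊤ := ne_top_of_le_ne_top (ENat.natCast_ne_top k) hw₁.2.1
    have hk' : ((ℓ w₁).toNat : ℕ∞) = ℓ w₁ := ENat.natCast_toNat hne
    simp only [Set.mem_iUnion, exists_prop]
    refine ⟨(ℓ w₁).toNat, Finset.mem_image_of_mem _ (Finset.mem_univ _), ?_⟩
    rw [G3mem]
    refine ⟨hy, ⟨w₀, ?_, hd₀⟩, ?_, w₁, hk'.symm, hw₁.2.2⟩
    · rw [hk']
      exact hmax w₀ hw₀S
    · intro w hw
      rw [hk'] at hw
      exact hall w (hw.trans hw₁.2.1)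
  -- the enlarged square
  set Q : Set Pl := {y : Pl | ∃ x ∈ Sq L, dist y x ≤ 2 * r} with hQ
  set Q' : Set Pl := toMeasurable volume Q with hQ'
  have hQm : MeasurableSet Q' := measurableSet_toMeasurable _ _
  have hQvol : volume Q' ≤ ENNReal.ofReal (4 * L ^ 2) := by
    rw [hQ', measure_toMeasurable]
    refine (volume_thick L (2 * r) hL0 (by linarith)).trans (ENNReal.ofReal_le_ofReal ?_)
    have h1 : 0 ≤ L + 2 * (2 * r) := by linarith
    have h2 : L + 2 * (2 * r) ≤ 2 * L := by linarith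
    calc (L + 2 * (2 * r)) ^ 2 ≤ (2 * L) ^ 2 := pow_le_pow_left₀ h1 h2 2
      _ = 4 * L ^ 2 := by ring
  let T : ℕ → Set Pl := fun k =>
    Q' ∩ ⋃ w ∈ {w | ℓ w = (k : ℕ∞)}, {y : Pl | dist y (X w) ≤ 4 * r}
  have hTm : ∀ k, MeasurableSet (T k) := fun k =>
    hQm.inter (MeasurableSet.biUnion (Set.to_countable _) fun w _ =>
      (isClosed_le (by fun_prop) (by fun_prop)).measurableSet)
  have hshell : ∀ k, volume (G3B X ℓ r ε L k) ≤
      ENNReal.ofReal (16 * (ε / r)) * volume (T k) := by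
    intro k
    refine (shell ((Finset.univ.filter fun w => ℓ w ≤ (k : ℕ∞)).image X) r ε hε hr
      (G3B X ℓ r ε L k) (G3B_meas X ℓ r ε L k) ?_ ?_).trans ?_
    · intro x hx w hw
      obtain ⟨v, hv, rfl⟩ := Finset.mem_image.mp hw
      rw [G3mem] at hx
      exact hx.2.2.1 v (Finset.mem_filter.mp hv).2
    · intro x hx
      rw [G3mem] at hx
      obtain ⟨v, hv1, hv2⟩ := hx.2.1
      exact ⟨X v, Finset.mem_image_of_mem _ (Finset.mem_filter.mpr ⟨Finset.mem_univ _, hv1⟩), hv2⟩
    · refine mul_le_mul_right (measure_mono ?_) _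
      rintro y ⟨x, hx, hyx⟩
      rw [G3mem] at hx
      obtain ⟨hxS, -, -, w, hw, hxw⟩ := hx
      refine ⟨subset_toMeasurable _ _ ⟨x, hxS, hyx⟩, ?_⟩
      simp only [Set.mem_iUnion, Set.mem_setOf_eq, exists_prop]
      refine ⟨w, hw, ?_⟩
      calc dist y (X w) ≤ dist y x + dist x (X w) := dist_triangle _ _ _
        _ ≤ 2 * r + 2 * r := add_le_add hyx hxw
        _ = 4 * r := by ring
  -- multiplicity
  have hmult : ∑ k ∈ K, volume (T k) ≤ 578 * volume Q' := by
    have e1 : ∀ k, volume (T k) = ∫⁻ y, (T k).indicator (fun _ => (1 : ENNReal)) y ∂volume := by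
      intro k
      rw [lintegral_indicator (hTm k)]
      simp
    have e2 : (578 : ENNReal) * volume Q' =
        ∫⁻ y, Q'.indicator (fun _ => (578 : ENNReal)) y ∂volume := by
      rw [lintegral_indicator hQm]
      simp
    rw [Finset.sum_congr rfl fun k _ => e1 k, ← lintegral_finsetSum, e2]
    · apply lintegral_mono
      intro y
      simp only
      by_cases hy : y ∈ Q'
      · rw [Set.indicator_of_mem hy]
        have e3 : ∑ k ∈ K, (T k).indicator (fun _ => (1 : ENNReal)) y =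
            ((K.filter fun k => y ∈ T k).card : ENNReal) := by
          rw [Finset.card_filter]
          push_cast
          apply Finset.sum_congr rfl
          intro k _
          by_cases hk : y ∈ T k
          · rw [Set.indicator_of_mem hk, if_pos hk]
          · rw [Set.indicator_of_notMem hk, if_neg hk]
        rw [e3]
        have e4 : (K.filter fun k => y ∈ T k).card ≤ 578 := by
          refine le_trans ?_ (level_count X ℓ r hr0 h y)
          rw [← Set.ncard_coe_finset]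
          apply Set.ncard_le_ncard
          · intro k hk
            rw [Finset.mem_coe, Finset.mem_filter] at hk
            have hk2 := hk.2.2
            simp only [Set.mem_iUnion, Set.mem_setOf_eq, exists_prop] at hk2
            exact hk2
          · apply Set.Finite.subset (K.finite_toSet)
            rintro k ⟨w, hw, -⟩
            rw [Finset.mem_coe, hK, Finset.mem_image]
            exact ⟨w, Finset.mem_univ _, by rw [hw]; rfl⟩
        exact_mod_cast e4
      · rw [Set.indicator_of_notMem hy]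
        have e3 : ∑ k ∈ K, (T k).indicator (fun _ => (1 : ENNReal)) y = 0 := by
          apply Finset.sum_eq_zero
          intro k _
          exact Set.indicator_of_notMem (fun hk => hy hk.1) _
        rw [e3]
    · intro k _
      exact measurable_const.indicator (hTm k)
  calc volume {y : Pl | y ∈ Sq L ∧ ∃ k : ℕ, (∃ w, ℓ w ≤ k ∧ dist y (X w) ≤ r + ε) ∧
      ∀ w, ℓ w ≤ k → r < dist y (X w)} ≤ volume (⋃ k ∈ K, G3B X ℓ r ε L k) := measure_mono hcover
    _ ≤ ∑ k ∈ K, volume (G3B X ℓ r ε L k) := measure_biUnion_finset_le _ _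
    _ ≤ ∑ k ∈ K, ENNReal.ofReal (16 * (ε / r)) * volume (T k) :=
        Finset.sum_le_sum fun k _ => hshell k
    _ = ENNReal.ofReal (16 * (ε / r)) * ∑ k ∈ K, volume (T k) := by rw [Finset.mul_sum]
    _ ≤ ENNReal.ofReal (16 * (ε / r)) * (578 * volume Q') := mul_le_mul_right hmult _
    _ ≤ ENNReal.ofReal (16 * (ε / r)) * (578 * ENNReal.ofReal (4 * L ^ 2)) :=
        mul_le_mul_right (mul_le_mul_right hQvol _) _
    _ = ENNReal.ofReal (36992 * (ε / r) * L ^ 2) := by
        have h578 : (578 : ENNReal) = ENNReal.ofReal 578 := by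
          rw [ENNReal.ofReal_ofNat]
        rw [h578, ← ENNReal.ofReal_mul (by norm_num), ← ENNReal.ofReal_mul (by positivity)]
        congr 1
        ring

end Pool.Agent.Helper42.MD
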