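import Mathlib
import Pool.Agent.Helper42.MD.Defs
import Pool.Agent.Helper42.MD.St.V1
import Pool.Agent.Helper42.MD.St.G3
import Pool.Agent.Helper42.MD.St.P2

set_option autoImplicit false

namespace Pool.Agent.Helper42.MD

open MeasureTheory

/-- The set of the points which are close to a vertex of level at most `k` and far from all of
these. -/
private def BSet {V : Type} (X : V → Pl) (ℓ : V → ℕ∞) (r ε : ℝ) : Set Pl :=
  {y | ∃ k : ℕ, (∃ w, ℓ w ≤ k ∧ dist y (X w) ≤ r + ε) ∧ ∀ w, ℓ w ≤ k → r < dist y (X w)}

private lemma measurableSet_BSet {V : Type} [Fintype V] (X : V → Pl) (ℓ : V → ℕ∞) (r ε : ℝ) :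
    MeasurableSet (BSet X ℓ r ε) := by
  have h : BSet X ℓ r ε = ⋃ k : ℕ, ((⋃ w : V, {y : Pl | ℓ w ≤ k ∧ dist y (X w) ≤ r + ε}) ∩
      ⋂ w : V, {y : Pl | ℓ w ≤ k → r < dist y (X w)}) := by
    ext y
    simp [BSet]
  rw [h]
  refine MeasurableSet.iUnion fun k => MeasurableSet.inter (MeasurableSet.iUnion fun w => ?_)
    (MeasurableSet.iInter fun w => ?_)
  · by_cases hw : ℓ w ≤ k
    · simp only [hw, true_and]
      exact measurableSet_le (measurable_id.dist measurable_const) measurable_const
    · simp [hw]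
  · by_cases hw : ℓ w ≤ k
    · simp only [hw, true_implies]
      exact measurableSet_lt measurable_const (measurable_id.dist measurable_const)
    · simp [hw]

private lemma set_subset {V : Type} [Fintype V] [DecidableEq V] (r ε : ℝ)
    (X : V → Pl) (s : V) (R : Set V)
    (hs : s ∈ R) (a b : V) (ha : a ∉ R) (hb : b ∉ R) (hab : a ≠ b) :
    {z : Pl × Pl | Function.update (Function.update X a z.1) b z.2 ∈ Ev r ε s R a b} ⊆
      {z | dist z.1 z.2 ≤ ε ∧ z.2 ∈ BSet X (fun w => (res (geo r X) R).edist s w) r ε} := by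
  rintro ⟨x, y⟩ ⟨h1, k, ⟨w, hw1, hw2⟩, h3⟩
  have e1 : Function.update (Function.update X a x) b y a = x := by
    rw [Function.update_of_ne hab, Function.update_self]
  have e2 : Function.update (Function.update X a x) b y b = y := Function.update_self ..
  have e3 : res (geo r (Function.update (Function.update X a x) b y)) R = res (geo r X) R := by
    rw [res_geo_update r _ R b hb y, res_geo_update r _ R a ha x]
  have e4 : ∀ w, (res (geo r X) R).edist s w ≤ k →
      Function.update (Function.update X a x) b y w = X w := by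
    intro w hw
    have hwR : w ∈ R := by
      by_contra hwR
      rw [res_edist_top _ R s w hs hwR] at hw
      exact absurd hw (by simp)
    have hwa : w ≠ a := fun h => ha (h ▸ hwR)
    have hwb : w ≠ b := fun h => hb (h ▸ hwR)
    rw [Function.update_of_ne hwb, Function.update_of_ne hwa]
  simp only [e1, e2] at h1 hw2 h3
  simp only [e3] at hw1 hw2 h3
  refine ⟨h1, k, ⟨w, hw1, ?_⟩, fun v hv => ?_⟩
  · rw [e4 w hw1] at hw2
    calc dist y (X w) ≤ dist y x + dist x (X w) := dist_triangle _ _ _
      _ ≤ ε + r := add_le_add (by rw [dist_comm]; exact h1) hw2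
      _ = r + ε := add_comm _ _
  · have := h3 v hv
    rwa [e4 v hv] at this

/-- MD-P3. For fixed `X` the levels `ℓ w = (res (geo r X) R).edist s w` do not change under the updates
(`res_geo_update`), and the positions of the vertices of finite level do not change either
(`res_edist_top`). If `z` is in the set then `dist z.1 z.2 ≤ ε` and `z.2` is in the set of `geom`
(within `r + ε` of some vertex of level `≤ k`, not within `r` of any). Integrate first over `z.1` in
the ball of radius `ε` about `z.2` (`unif_le`, `volume_ball`), then over `z.2` (`unif_le`, `geom` with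
`L = √n`): the bound is `(36992 * ε / r * n) * (π * ε ^ 2) / n ^ 2`. -/
theorem pair_bound {V : Type} [Fintype V] [DecidableEq V] (n : ℕ) (hn : 1 ≤ n) (r ε : ℝ)
    (hε : 0 < ε) (hr : 2 * ε ≤ r) (hL : 4 * r ≤ Real.sqrt n) (X : V → Pl) (s : V) (R : Set V)
    (hs : s ∈ R) (a b : V) (ha : a ∉ R) (hb : b ∉ R) (hab : a ≠ b) :
    ((unif n).prod (unif n))
      {z | Function.update (Function.update X a z.1) b z.2 ∈ Ev r ε s R a b} ≤
      ENNReal.ofReal (147968 * ε ^ 3 / (r * n)) := by
  have : NeZero n := ⟨by omega⟩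
  have := unif_prob n
  set B := BSet X (fun w => (res (geo r X) R).edist s w) r ε with hB
  have hBm : MeasurableSet B := measurableSet_BSet _ _ _ _
  have hS : MeasurableSet {z : Pl × Pl | dist z.1 z.2 ≤ ε ∧ z.2 ∈ B} := by
    apply MeasurableSet.inter
    · exact measurableSet_le (measurable_fst.dist measurable_snd) measurable_const
    · exact measurable_snd hBm
  refine (measure_mono (set_subset r ε X s R hs a b ha hb hab)).trans ?_
  rw [Measure.prod_apply_symm hS]
  have hn0 : (0 : ℝ) < n := by exact_mod_cast hn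
  have hr0 : 0 < r := by linarith
  have h1 : ∀ y : Pl, unif n ((fun x => (x, y)) ⁻¹' {z : Pl × Pl | dist z.1 z.2 ≤ ε ∧ z.2 ∈ B}) ≤
      B.indicator (fun _ => ENNReal.ofReal (Real.pi * ε ^ 2) * ENNReal.ofReal (1 / n)) y := by
    intro y
    by_cases hy : y ∈ B
    · rw [Set.indicator_of_mem hy]
      refine (unif_le n hn _).trans ?_
      gcongr
      rw [← volume_ball y ε hε.le]
      apply measure_mono
      rintro x ⟨-, hx⟩
      exact hx.1
    · rw [Set.indicator_of_notMem hy]
      have : ((fun x => (x, y)) ⁻¹' {z : Pl × Pl | dist z.1 z.2 ≤ ε ∧ z.2 ∈ B}) = ∅ := by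
        ext x
        simp [hy]
      rw [this]
      simp
  refine (lintegral_mono h1).trans ?_
  rw [lintegral_indicator hBm, setLIntegral_const]
  have h2 : unif n B ≤ ENNReal.ofReal (36992 * (ε / r) * Real.sqrt n ^ 2) *
      ENNReal.ofReal (1 / n) := by
    refine (unif_le n hn _).trans ?_
    gcongr
    refine le_trans (measure_mono ?_) (geom X (fun w => (res (geo r X) R).edist s w) r ε
      (Real.sqrt n) hε hr hL (levelFun_res r X R s hs))
    rintro y ⟨hy1, hy2⟩
    exact ⟨hy1, hy2⟩
  refine (mul_le_mul_right h2 _).trans ?_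
  rw [← ENNReal.ofReal_mul (by positivity), ← ENNReal.ofReal_mul (by positivity),
    ← ENNReal.ofReal_mul (by positivity)]
  apply ENNReal.ofReal_le_ofReal
  rw [Real.sq_sqrt hn0.le]
  have hpi : Real.pi ≤ 4 := Real.pi_le_four
  have : Real.pi * ε ^ 2 * (1 / n) * (36992 * (ε / r) * n * (1 / n)) =
      Real.pi * (36992 * ε ^ 3 / (r * n)) := by
    field_simp
  rw [this]
  calc Real.pi * (36992 * ε ^ 3 / (r * n)) ≤ 4 * (36992 * ε ^ 3 / (r * n)) := by gcongr
    _ = 147968 * ε ^ 3 / (r * n) := by ring

end Pool.Agent.Helper42.MD
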